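import Pool.Agent.W313.Hyp.Loc

/-!
The closed points of the curve `f(x) = t` over the closed points of the line.
-/

set_option autoImplicit false
set_option maxHeartbeats 1000000

open Polynomial

namespace Pool.Agent.TH943.HJ

open Pool.Agent.W313.Hyp Pool.Agent.W343.BSD

section

variable {k : Type} [Field k]

instance factMI (P : MI k) : Fact (Irreducible P.1) := ⟨P.2.2⟩

/-- The residue field of a closed point of the line. -/
abbrev RF (P : MI k) : Type := AdjoinRoot P.1

/-- The polynomial `f(x) - t` over the residue field at `P`. -/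
noncomputable def fib (f : k[X]) (P : MI k) : (RF P)[X] :=
  f.map (algebraMap k (RF P)) - C (AdjoinRoot.root P.1)

theorem aeval_fib {f : k[X]} {P : MI k} {L : Type} [Field L] [Algebra k L] [Algebra (RF P) L]
    [IsScalarTower k (RF P) L] (β : L) :
    aeval β (fib f P) = aeval β f - algebraMap (RF P) L (AdjoinRoot.root P.1) := by
  unfold fib
  rw [map_sub, aeval_C, aeval_map_algebraMap]

theorem algebraMap_mk {P : MI k} {L : Type} [Field L] [Algebra k L] [Algebra (RF P) L]
    [IsScalarTower k (RF P) L] (u : k[X]) :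
    algebraMap (RF P) L (AdjoinRoot.mk P.1 u) =
      aeval (algebraMap (RF P) L (AdjoinRoot.root P.1)) u := by
  rw [aeval_algebraMap_apply, AdjoinRoot.aeval_eq]

/-- a polynomial over the residue field is a polynomial over `k` on the curve -/
theorem exists_lift_poly (f : k[X]) (P : MI k) (G : (RF P)[X]) :
    ∃ g : k[X], ∀ (L : Type) [Field L] [Algebra k L] [Algebra (RF P) L]
      [IsScalarTower k (RF P) L] (β : L),
      aeval β f = algebraMap (RF P) L (AdjoinRoot.root P.1) → aeval β G = aeval β g := by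
  induction G using Polynomial.induction_on' with
  | add p q hp hq =>
    obtain ⟨g, hg⟩ := hp
    obtain ⟨h, hh⟩ := hq
    refine ⟨g + h, fun L _ _ _ _ β hβ => ?_⟩
    rw [map_add, map_add, hg L β hβ, hh L β hβ]
  | monomial n c =>
    obtain ⟨u, rfl⟩ := AdjoinRoot.mk_surjective c
    refine ⟨u.comp f * X ^ n, fun L _ _ _ _ β hβ => ?_⟩
    rw [aeval_monomial, map_mul, map_pow, aeval_X, aeval_comp, hβ, algebraMap_mk]

theorem adjoin_top {f : k[X]} {P : MI k} (Q : MI (RF P)) (hQ : Q.1 ∣ fib f P) :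
    Algebra.adjoin k {(AdjoinRoot.root Q.1 : AdjoinRoot Q.1)} = ⊤ := by
  have hroot : aeval (AdjoinRoot.root Q.1) (fib f P) = (0 : AdjoinRoot Q.1) := by
    obtain ⟨R, hR⟩ := hQ
    rw [hR, map_mul, AdjoinRoot.aeval_eq, AdjoinRoot.mk_self, zero_mul]
  rw [aeval_fib, sub_eq_zero] at hroot
  rw [eq_top_iff]
  intro z _
  obtain ⟨G, rfl⟩ := AdjoinRoot.mk_surjective z
  obtain ⟨g, hg⟩ := exists_lift_poly f P G
  rw [← AdjoinRoot.aeval_eq, hg _ _ hroot]
  exact aeval_mem_adjoin_singleton k _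

theorem aeval_root_f {f : k[X]} {P : MI k} (Q : MI (RF P)) (hQ : Q.1 ∣ fib f P) :
    aeval (AdjoinRoot.root Q.1) f = algebraMap (RF P) (AdjoinRoot Q.1) (AdjoinRoot.root P.1) := by
  have hroot : aeval (AdjoinRoot.root Q.1) (fib f P) = (0 : AdjoinRoot Q.1) := by
    obtain ⟨R, hR⟩ := hQ
    rw [hR, map_mul, AdjoinRoot.aeval_eq, AdjoinRoot.mk_self, zero_mul]
  rwa [aeval_fib, sub_eq_zero] at hroot

theorem fd1 (P : MI k) : Module.Finite k (RF P) := P.2.1.finite_adjoinRoot

theorem fd2 {P : MI k} (Q : MI (RF P)) : Module.Finite k (AdjoinRoot Q.1) := by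
  have h1 := fd1 P
  have h2 : Module.Finite (RF P) (AdjoinRoot Q.1) := Q.2.1.finite_adjoinRoot
  exact Module.Finite.trans (RF P) (AdjoinRoot Q.1)

theorem finrank_RF (P : MI k) : Module.finrank k (RF P) = P.1.natDegree := by
  rw [(AdjoinRoot.powerBasis P.2.2.ne_zero).finrank, AdjoinRoot.powerBasis_dim]

theorem finrank_two {P : MI k} (Q : MI (RF P)) :
    Module.finrank k (AdjoinRoot Q.1) = P.1.natDegree * Q.1.natDegree := by
  have h1 := Module.finrank_mul_finrank k (RF P) (AdjoinRoot Q.1)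
  have h2 : Module.finrank (RF P) (AdjoinRoot Q.1) = Q.1.natDegree := by
    rw [(AdjoinRoot.powerBasis Q.2.2.ne_zero).finrank, AdjoinRoot.powerBasis_dim]
  rw [← h1, h2, finrank_RF]

/-- The closed point of the `x`-line below a point of the curve. -/
noncomputable def down {P : MI k} (Q : MI (RF P)) : MI k :=
  ⟨minpoly k (AdjoinRoot.root Q.1 : AdjoinRoot Q.1), by
    have := fd2 Q
    exact ⟨minpoly.monic (Algebra.IsIntegral.isIntegral _),
      minpoly.irreducible (Algebra.IsIntegral.isIntegral _)⟩⟩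

theorem down_deg {f : k[X]} {P : MI k} (Q : MI (RF P)) (hQ : Q.1 ∣ fib f P) :
    (down Q).1.natDegree = P.1.natDegree * Q.1.natDegree := by
  have := fd2 Q
  rw [← finrank_two Q]
  have hint : IsIntegral k (AdjoinRoot.root Q.1 : AdjoinRoot Q.1) := Algebra.IsIntegral.isIntegral _
  have h1 := adjoin_top Q hQ
  have h2 := (Algebra.adjoin.powerBasis hint).finrank
  rw [Algebra.adjoin.powerBasis_dim] at h2
  show (minpoly k (AdjoinRoot.root Q.1 : AdjoinRoot Q.1)).natDegree = _
  rw [← h2, h1]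
  exact (Subalgebra.topEquiv (R := k) (A := AdjoinRoot Q.1)).toLinearEquiv.finrank_eq

theorem down_dvd {f : k[X]} {P : MI k} (Q : MI (RF P)) (hQ : Q.1 ∣ fib f P) :
    (down Q).1 ∣ P.1.comp f := by
  apply minpoly.dvd
  rw [aeval_comp, aeval_root_f Q hQ, ← algebraMap_mk, AdjoinRoot.mk_self, map_zero]

theorem down_inj {f : k[X]} {P : MI k} (Q Q' : MI (RF P)) (hQ : Q.1 ∣ fib f P)
    (hQ' : Q'.1 ∣ fib f P) (h : down Q = down Q') : Q = Q' := by
  obtain ⟨g, hg⟩ := exists_lift_poly f P Q.1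
  have h1 : aeval (AdjoinRoot.root Q.1 : AdjoinRoot Q.1) g = 0 := by
    rw [← hg _ _ (aeval_root_f Q hQ), AdjoinRoot.aeval_eq, AdjoinRoot.mk_self]
  have h2 : (down Q').1 ∣ g := by
    rw [← h]
    exact minpoly.dvd k _ h1
  have h3 : aeval (AdjoinRoot.root Q'.1 : AdjoinRoot Q'.1) g = 0 := by
    obtain ⟨u, hu⟩ := h2
    rw [hu, map_mul]
    have : aeval (AdjoinRoot.root Q'.1 : AdjoinRoot Q'.1) (down Q').1 = 0 := minpoly.aeval _ _
    rw [this, zero_mul]
  rw [← hg _ _ (aeval_root_f Q' hQ'), AdjoinRoot.aeval_eq, AdjoinRoot.mk_eq_zero] at h3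
  exact (eq_of_dvd_MI h3).symm

theorem down_surj {f : k[X]} {P : MI k} (R : MI k) (hR : R.1 ∣ P.1.comp f) :
    ∃ Q : MI (RF P), Q.1 ∣ fib f P ∧ down Q = R := by
  have hroot : aeval (aeval (AdjoinRoot.root R.1 : RF R) f) P.1 = 0 := by
    rw [← aeval_comp]
    obtain ⟨u, hu⟩ := hR
    rw [hu, map_mul, AdjoinRoot.aeval_eq, AdjoinRoot.mk_self, zero_mul]
  let i : RF P →+* RF R := AdjoinRoot.lift (algebraMap k (RF R))
    (aeval (AdjoinRoot.root R.1 : RF R) f) hroot
  let _ : Algebra (RF P) (RF R) := i.toAlgebra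
  have : IsScalarTower k (RF P) (RF R) := IsScalarTower.of_algebraMap_eq fun x =>
    (AdjoinRoot.lift_of (i := algebraMap k (RF R)) (h := hroot) (x := x)).symm
  have hi : algebraMap (RF P) (RF R) (AdjoinRoot.root P.1) =
      aeval (AdjoinRoot.root R.1 : RF R) f := AdjoinRoot.lift_root (i := algebraMap k (RF R)) hroot
  have hfd := fd1 R
  have : Module.Finite (RF P) (RF R) := Module.Finite.of_restrictScalars_finite k (RF P) (RF R)
  have hint : IsIntegral (RF P) (AdjoinRoot.root R.1 : RF R) := Algebra.IsIntegral.isIntegral _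
  let Q : MI (RF P) := ⟨minpoly (RF P) (AdjoinRoot.root R.1 : RF R), minpoly.monic hint,
    minpoly.irreducible hint⟩
  have hQ : Q.1 ∣ fib f P := by
    apply minpoly.dvd
    rw [aeval_fib, hi, sub_self]
  refine ⟨Q, hQ, ?_⟩
  symm
  apply eq_of_dvd_MI
  have h1 : aeval (AdjoinRoot.root Q.1 : AdjoinRoot Q.1) (down Q).1 = 0 := minpoly.aeval _ _
  rw [← aeval_map_algebraMap (RF P), AdjoinRoot.aeval_eq, AdjoinRoot.mk_eq_zero] at h1
  have h2 : aeval (AdjoinRoot.root R.1 : RF R) (down Q).1 = 0 := by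
    rw [← aeval_map_algebraMap (RF P)]
    obtain ⟨u, hu⟩ := h1
    rw [hu, map_mul]
    have : aeval (AdjoinRoot.root R.1 : RF R) Q.1 = 0 := minpoly.aeval _ _
    rw [this, zero_mul]
  rwa [AdjoinRoot.aeval_eq, AdjoinRoot.mk_eq_zero] at h2

theorem finRF [Finite k] (P : MI k) : Finite (RF P) := by
  have := fd1 P
  exact Module.finite_of_finite k

/-- the local comparison -/
theorem prod_local [Finite k] {M : Type} [CommMonoid M] (f : k[X]) (P : MI k) (hf : fib f P ≠ 0)
    (hc : P.1.comp f ≠ 0) (φ : ℕ → M) :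
    ∏ Q ∈ facs (fib f P), φ (P.1.natDegree * Q.1.natDegree) =
      ∏ R ∈ facs (P.1.comp f), φ R.1.natDegree := by
  have := finRF P
  refine Finset.prod_bij (fun Q _ => down Q) ?_ ?_ ?_ ?_
  · intro Q hQ
    rw [mem_facs hf] at hQ
    rw [mem_facs hc]
    exact down_dvd Q hQ
  · intro Q hQ Q' hQ' h
    rw [mem_facs hf] at hQ hQ'
    exact down_inj Q Q' hQ hQ' h
  · intro R hR
    rw [mem_facs hc] at hR
    obtain ⟨Q, hQ, h⟩ := down_surj R hR
    exact ⟨Q, (mem_facs hf Q).2 hQ, h⟩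
  · intro Q hQ
    rw [mem_facs hf] at hQ
    rw [down_deg Q hQ]

theorem comp_ne {f : k[X]} (hf : 0 < f.natDegree) (P : MI k) : P.1.comp f ≠ 0 := by
  intro h
  rw [comp_eq_zero_iff] at h
  rcases h with h | ⟨_, h⟩
  · exact P.2.2.ne_zero h
  · rw [h, natDegree_C] at hf
    exact lt_irrefl _ hf

theorem fib_natDegree {f : k[X]} (hf : 0 < f.natDegree) (P : MI k) :
    (fib f P).natDegree = f.natDegree := by
  unfold fib
  rw [natDegree_sub_C, natDegree_map]

theorem fib_ne {f : k[X]} (hf : 0 < f.natDegree) (P : MI k) : fib f P ≠ 0 := by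
  intro h
  have h1 := fib_natDegree hf P
  rw [h, natDegree_zero] at h1
  omega

/-- every closed point of the `x`-line lies over one closed point of the `t`-line -/
theorem exists_over {f : k[X]} (R : MI k) : ∃ P : MI k, R.1 ∣ P.1.comp f := by
  have hfd := fd1 R
  have hint : IsIntegral k (aeval (AdjoinRoot.root R.1 : RF R) f) := Algebra.IsIntegral.isIntegral _
  refine ⟨⟨minpoly k (aeval (AdjoinRoot.root R.1 : RF R) f), minpoly.monic hint,
    minpoly.irreducible hint⟩, ?_⟩
  rw [← AdjoinRoot.mk_eq_zero, ← AdjoinRoot.aeval_eq, aeval_comp]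
  exact minpoly.aeval _ _

theorem over_unique {f : k[X]} (R P P' : MI k) (h : R.1 ∣ P.1.comp f) (h' : R.1 ∣ P'.1.comp f) :
    P = P' := by
  by_contra hne
  have h1 : IsCoprime P.1 P'.1 := by
    rw [P.2.2.coprime_iff_not_dvd]
    intro hd
    exact hne (eq_of_dvd_MI hd)
  have h2 : IsCoprime (P.1.comp f) (P'.1.comp f) := h1.map (compRingHom f)
  exact R.2.2.not_isUnit (h2.isUnit_of_dvd' h h')

end

end Pool.Agent.TH943.HJ
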