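import Pool.Agent.TH943.HJ.Desc

/-!
Independence of the classes.
-/

set_option autoImplicit false
set_option maxHeartbeats 1000000

open Polynomial

namespace Pool.Agent.TH943.HJ

section

variable {K : Type} [Field K] {F : K[X]} {ι : Type} [Fintype ι]

/-- the ideal of a divisor as a nonzero ideal -/
noncomputable def idl (F g w : K[X]) (hg : g ≠ 0) [IsDomain (CR F)] :
    nonZeroDivisors (Ideal (CR F)) :=
  ⟨pid F g w, mem_nonZeroDivisors_iff_ne_zero.2 (pid_ne hg w)⟩

/-- the class of a divisor -/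
noncomputable def cls (F g w : K[X]) (hg : g ≠ 0) [IsDedekindDomain (CR F)] :
    ClassGroup (CR F) := ClassGroup.mk0 (idl F g w hg)

theorem cls_neg (h2 : (2 : K) ≠ 0) [IsDedekindDomain (CR F)] {g w : K[X]} (hg : g ≠ 0)
    (hd : g ∣ F - w ^ 2) (hc : IsCoprime g w) : cls F g (-w) hg = (cls F g w hg)⁻¹ := by
  symm
  apply inv_eq_of_mul_eq_one_right
  unfold cls
  rw [← map_mul, ← map_one ClassGroup.mk0, ClassGroup.mk0_eq_mk0_iff]
  refine ⟨1, pp g, one_ne_zero, ?_, ?_⟩
  · intro h0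
    exact hg ((injective_iff_map_eq_zero _).1 pp_inj _ h0)
  · show Ideal.span {1} * (pid F g w * pid F g (-w)) = Ideal.span {pp g} * 1
    rw [pid_mul h2 hd hc, Ideal.span_singleton_one, Ideal.top_mul, mul_one]

variable {g w : ι → K[X]}

/-- the class of a combination -/
theorem prod_cls (h2 : (2 : K) ≠ 0) [IsDedekindDomain (CR F)] (hP : Pts F g w) (z : ι → ℤ)
    (s : ι → K[X]) (hs : ∀ i, (0 ≤ z i → s i = w i) ∧ (z i < 0 → s i = -w i))
    (hne : JJ F g s (fun i => (z i).natAbs) ∈ nonZeroDivisors (Ideal (CR F))) :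
    ∏ i, cls F (g i) (w i) (hP.monic i).ne_zero ^ z i =
      ClassGroup.mk0 ⟨JJ F g s (fun i => (z i).natAbs), hne⟩ := by
  have h1 : (⟨JJ F g s (fun i => (z i).natAbs), hne⟩ : nonZeroDivisors (Ideal (CR F))) =
      ∏ i, idl F (g i) (s i) (hP.monic i).ne_zero ^ (z i).natAbs := by
    apply Subtype.ext
    rw [Submonoid.coe_finsetProd]
    rfl
  rw [h1, map_prod]
  refine Finset.prod_congr rfl fun i _ => ?_
  rw [map_pow]
  show _ = cls F (g i) (s i) (hP.monic i).ne_zero ^ (z i).natAbs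
  rcases le_or_gt 0 (z i) with h | h
  · rw [(hs i).1 h]
    conv_lhs => rw [← Int.natAbs_of_nonneg h]
    rw [zpow_natCast]
  · rw [(hs i).2 h, cls_neg h2 (hP.monic i).ne_zero (hP.dvd i) (hP.cop i), inv_pow]
    have h3 : z i = -((z i).natAbs : ℤ) := by omega
    conv_lhs => rw [h3]
    rw [zpow_neg, zpow_natCast]

omit [Fintype ι] in
theorem Pts.sign (hP : Pts F g w) (s : ι → K[X]) (hs : ∀ i, s i = w i ∨ s i = -w i) :
    Pts F g s := by
  refine ⟨hP.monic, fun i => ?_, fun i => ?_, hP.pw⟩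
  · rcases hs i with h | h
    · rw [h]; exact hP.dvd i
    · rw [h, neg_sq]; exact hP.dvd i
  · rcases hs i with h | h
    · rw [h]; exact hP.cop i
    · rw [h]; exact (hP.cop i).neg_right

/-- Independence of the classes, if every identity for a norm has even exponents. -/
theorem indep (h2 : (2 : K) ≠ 0) (hodd : Odd F.natDegree) (hF : Irreducible F)
    [IsDedekindDomain (CR F)] (hP : Pts F g w)
    (HA : ∀ (W V : K[X]) (c : K) (e : ι → ℕ), c ≠ 0 →
      W ^ 2 - F * V ^ 2 = C c * ∏ i, g i ^ e i → ∀ i, Even (e i)) (z : ι → ℤ)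
    (hz : ∏ i, cls F (g i) (w i) (hP.monic i).ne_zero ^ z i = 1) : z = 0 := by
  classical
  induction hn : ∑ i, (z i).natAbs using Nat.strong_induction_on generalizing z with
  | _ n ih =>
  by_cases hz0 : z = 0
  · exact hz0
  exfalso
  let s : ι → K[X] := fun i => if 0 ≤ z i then w i else -w i
  have hs : ∀ i, (0 ≤ z i → s i = w i) ∧ (z i < 0 → s i = -w i) := fun i =>
    ⟨fun h => if_pos h, fun h => if_neg (not_le.2 h)⟩
  have hsw : ∀ i, s i = w i ∨ s i = -w i := fun i => by
    by_cases h : 0 ≤ z i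
    · exact Or.inl (if_pos h)
    · exact Or.inr (if_neg h)
  have hPs := hP.sign s hsw
  have hne : ∀ e : ι → ℕ, JJ F g s e ∈ nonZeroDivisors (Ideal (CR F)) := fun e =>
    mem_nonZeroDivisors_iff_ne_zero.2 (JJ_ne (fun i => (hP.monic i).ne_zero) s e)
  rw [prod_cls h2 hP z s hs (hne _), ClassGroup.mk0_eq_one_iff] at hz
  -- the exponents are even
  obtain ⟨h, hh⟩ := id hz
  rw [Ideal.submodule_span_eq] at hh
  obtain ⟨W, V, rfl⟩ := exists_el h
  obtain ⟨c, hc, hN⟩ := norm_eq h2 hPs _ hh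
  have heven := HA W V c _ hc hN
  choose z' hz' using fun i => (Int.natAbs_even.1 (heven i))
  have hzz : ∀ i, z i = 2 * z' i := fun i => by rw [hz' i]; ring
  have he : (fun i => (z i).natAbs) = fun i => 2 * (z' i).natAbs := by
    funext i
    rw [hzz i, Int.natAbs_mul]
    rfl
  rw [he] at hz
  obtain ⟨x, y, hx, hy, hxy⟩ := half h2 hodd hF hPs (fun i => (z' i).natAbs) hz
  have hs' : ∀ i, (0 ≤ z' i → s i = w i) ∧ (z' i < 0 → s i = -w i) := fun i =>
    ⟨fun h => (hs i).1 (by rw [hzz]; omega), fun h => (hs i).2 (by rw [hzz]; omega)⟩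
  have hz1 : ∏ i, cls F (g i) (w i) (hP.monic i).ne_zero ^ z' i = 1 := by
    rw [prod_cls h2 hP z' s hs' (hne _), ← map_one ClassGroup.mk0, ClassGroup.mk0_eq_mk0_iff]
    refine ⟨x, y, hx, hy, ?_⟩
    show Ideal.span {x} * JJ F g s (fun i => (z' i).natAbs) = Ideal.span {y} * 1
    rw [hxy, mul_one]
  have hsum : ∑ i, (z i).natAbs = 2 * ∑ i, (z' i).natAbs := by
    rw [Finset.mul_sum]
    exact Finset.sum_congr rfl fun i _ => congrFun he i
  have hpos : 0 < ∑ i, (z' i).natAbs := by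
    by_contra h0
    apply hz0
    funext i
    have h3 : ∑ i, (z' i).natAbs = 0 := by omega
    have h4 := (Finset.sum_eq_zero_iff.1 h3) i (Finset.mem_univ i)
    rw [hzz i, Int.natAbs_eq_zero.1 h4, mul_zero]
    rfl
  have h5 := ih (∑ i, (z' i).natAbs) (by omega) z' hz1 rfl
  rw [h5] at hpos
  simp at hpos

/-- The rank of the class group is at least the number of the classes. -/
theorem rank_ge (h2 : (2 : K) ≠ 0) (hodd : Odd F.natDegree) (hF : Irreducible F)
    [IsDedekindDomain (CR F)] (hP : Pts F g w)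
    (HA : ∀ (W V : K[X]) (c : K) (e : ι → ℕ), c ≠ 0 →
      W ^ 2 - F * V ^ 2 = C c * ∏ i, g i ^ e i → ∀ i, Even (e i)) :
    (Fintype.card ι : Cardinal) ≤ Module.rank ℤ (Additive (ClassGroup (CR F))) := by
  have hli : LinearIndependent ℤ (fun i =>
      Additive.ofMul (cls F (g i) (w i) (hP.monic i).ne_zero)) := by
    rw [Fintype.linearIndependent_iff]
    intro z hz i
    have h1 : ∏ i, cls F (g i) (w i) (hP.monic i).ne_zero ^ z i = 1 := by
      have h3 : Additive.ofMul (∏ i, cls F (g i) (w i) (hP.monic i).ne_zero ^ z i) = 0 := by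
        rw [ofMul_prod, ← hz]
        exact Finset.sum_congr rfl fun i _ => ofMul_zpow _ _
      exact h3
    rw [indep h2 hodd hF hP HA z h1]
    rfl
  have := hli.cardinal_le_rank
  rwa [Cardinal.mk_fintype] at this

end

end Pool.Agent.TH943.HJ
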