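import Pool.Agent.TH943.HJ.Ring

/-!
The coordinate ring of `y ^ 2 = F(x)` is a Dedekind domain.
-/

set_option autoImplicit false
set_option maxHeartbeats 1000000

open Polynomial

namespace Pool.Agent.TH943.HJ

section

variable {K : Type} [Field K] {F : K[X]}

theorem cj_inj : Function.Injective (cj F) :=
  Function.LeftInverse.injective (g := cj F) cj_cj

/-- the square of a polynomial dividing `F q ^ 2` -/
theorem dvd_of_sq {D Q : K[X]} (hsq : Squarefree F) (hD : D ≠ 0) (h : D ^ 2 ∣ F * Q ^ 2) : D ∣ Q := by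
  obtain ⟨d, q, g, hrel, hd, hq⟩ := UniqueFactorizationMonoid.exists_reduced_factors D hD Q
  have hcop : IsCoprime d q := isRelPrime_iff_isCoprime.1 hrel
  have hg : g ≠ 0 := by
    rintro rfl
    rw [zero_mul] at hd
    exact hD hd.symm
  have h1 : d ^ 2 ∣ F * q ^ 2 := by
    have h2 : g ^ 2 * d ^ 2 ∣ g ^ 2 * (F * q ^ 2) := by
      have e1 : g ^ 2 * d ^ 2 = D ^ 2 := by rw [← hd]; ring
      have e2 : g ^ 2 * (F * q ^ 2) = F * Q ^ 2 := by rw [← hq]; ring
      rw [e1, e2]
      exact h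
    exact (mul_dvd_mul_iff_left (pow_ne_zero 2 hg)).1 h2
  have h3 : d ^ 2 ∣ F := (hcop.pow (m := 2) (n := 2)).dvd_of_dvd_mul_right h1
  have h4 : IsUnit d := hsq d (by rw [← sq]; exact h3)
  rw [← hd, ← hq]
  exact mul_dvd_mul_left _ (h4.dvd)

theorem int_closed (h2 : (2 : K) ≠ 0) (hodd : Odd F.natDegree) (hsq : Squarefree F)
    [IsDomain (CR F)] (L : Type) [Field L] [Algebra (CR F) L] [IsFractionRing (CR F) L]
    [Algebra K[X] L] [IsScalarTower K[X] (CR F) L] (z : L) (hz : IsIntegral (CR F) z) :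
    ∃ y, algebraMap (CR F) L y = z := by
  let κ : CR F →+* L := algebraMap (CR F) L
  have hκ : Function.Injective κ := IsFractionRing.injective (CR F) L
  let ι : K[X] →+* L := algebraMap K[X] L
  have hικ : ∀ p, ι p = κ (pp p) := fun p => IsScalarTower.algebraMap_apply K[X] (CR F) L p
  have hι : Function.Injective ι := by
    intro a b hab
    rw [hικ, hικ] at hab
    exact pp_inj (hκ hab)
  let σ : L →+* L := IsFractionRing.lift (A := CR F) (K := L) (g := κ.comp (cj F))
    (hκ.comp cj_inj)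
  have hσ : ∀ a, σ (κ a) = κ (cj F a) := fun a => IsFractionRing.lift_algebraMap _ a
  have hσι : ∀ p, σ (ι p) = ι p := fun p => by
    rw [hικ, hσ, cj_pp]
  -- integrality over the polynomials
  have hfin : Module.Finite K[X] (CR F) := (monicF F).finite_adjoinRoot
  have hz1 : IsIntegral K[X] z := isIntegral_trans z hz
  have hz2 : IsIntegral K[X] (σ z) := by
    have hs : ∀ p : K[X], σ (algebraMap K[X] L p) = algebraMap K[X] L p := hσι
    exact hz1.map ({ σ with commutes' := hs } : L →ₐ[K[X]] L)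
  have hpoly : ∀ {u d : K[X]}, d ≠ 0 → IsIntegral K[X] (ι u / ι d) → d ∣ u := by
    intro u d hd h
    let φ : FractionRing K[X] →ₐ[K[X]] L := IsFractionRing.liftAlgHom (g := Algebra.ofId K[X] L) hι
    have hφa : ∀ p : K[X], φ (algebraMap K[X] (FractionRing K[X]) p) = ι p :=
      fun p => φ.commutes p
    have h1 : φ (algebraMap K[X] (FractionRing K[X]) u / algebraMap K[X] (FractionRing K[X]) d) =
        ι u / ι d := by
      rw [map_div₀, hφa, hφa]
    rw [← h1, isIntegral_algHom_iff φ φ.toRingHom.injective, IsIntegrallyClosed.isIntegral_iff] at h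
    obtain ⟨y, hy⟩ := h
    have hd' : algebraMap K[X] (FractionRing K[X]) d ≠ 0 := by
      rw [Ne, IsFractionRing.to_map_eq_zero_iff]
      exact hd
    rw [eq_div_iff hd', ← map_mul] at hy
    refine ⟨y, ?_⟩
    rw [mul_comm]
    exact (IsFractionRing.injective K[X] (FractionRing K[X]) hy).symm
  obtain ⟨P, Q, D, hD, hzD⟩ : ∃ P Q D : K[X], D ≠ 0 ∧ z * ι D = κ (el P Q) := by
    obtain ⟨r, s, hs, rfl⟩ := IsFractionRing.div_surjective (A := CR F) z
    have hs0 : s ≠ 0 := nonZeroDivisors.ne_zero hs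
    obtain ⟨p, q, rfl⟩ := exists_el s
    obtain ⟨P, Q, hPQ⟩ := exists_el (r * cj F (el p q))
    refine ⟨P, Q, p ^ 2 - F * q ^ 2, ?_, ?_⟩
    · intro h
      obtain ⟨rfl, rfl⟩ := norm_ne hodd h
      exact hs0 (by rw [el_left, map_zero])
    · have h3 : ι (p ^ 2 - F * q ^ 2) = κ (el p q) * κ (cj F (el p q)) := by
        rw [← map_mul, el_mul_cj, hικ]
      have h4 : κ (el p q) ≠ 0 := by
        rw [Ne, map_eq_zero_iff κ hκ]
        exact hs0
      rw [h3, ← hPQ, map_mul]
      show κ r / κ (el p q) * (κ (el p q) * κ (cj F (el p q))) = _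
      field_simp
  have hD' : ι D ≠ 0 := by
    rw [Ne, map_eq_zero_iff _ hι]
    exact hD
  have hzbD : σ z * ι D = κ (el P (-Q)) := by
    have h1 := congrArg σ hzD
    rw [map_mul, hσ, cj_el, hσι] at h1
    exact h1
  have ht : z + σ z = ι (2 * P) / ι D := by
    rw [eq_div_iff hD', add_mul, hzD, hzbD, ← map_add]
    rw [hικ]
    congr 1
    unfold el
    rw [map_neg, map_mul, map_ofNat]
    ring
  have hn : z * σ z = ι (P ^ 2 - F * Q ^ 2) / ι (D ^ 2) := by
    rw [map_pow, eq_div_iff (pow_ne_zero 2 hD')]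
    have h1 : ι (P ^ 2 - F * Q ^ 2) = κ (el P Q) * κ (el P (-Q)) := by
      rw [← map_mul, ← cj_el, el_mul_cj, hικ]
    rw [h1, ← hzD, ← hzbD]
    ring
  have hDt : D ∣ 2 * P := hpoly hD (by rw [← ht]; exact hz1.add hz2)
  have hDn : D ^ 2 ∣ P ^ 2 - F * Q ^ 2 :=
    hpoly (pow_ne_zero 2 hD) (by rw [← hn]; exact hz1.mul hz2)
  have hu2 : IsUnit (2 : K[X]) := by
    have : (2 : K[X]) = C 2 := by rw [map_ofNat]
    rw [this]
    exact isUnit_C.2 (isUnit_iff_ne_zero.2 h2)
  have hDP : D ∣ P := (hu2.dvd_mul_left).1 hDt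
  have hDQ : D ∣ Q := by
    apply dvd_of_sq hsq hD
    have h5 : D ^ 2 ∣ P ^ 2 := pow_dvd_pow_of_dvd hDP 2
    have h6 := dvd_sub h5 hDn
    rwa [sub_sub_cancel] at h6
  obtain ⟨a, ha⟩ := hDP
  obtain ⟨b, hb⟩ := hDQ
  refine ⟨el a b, ?_⟩
  apply mul_right_cancel₀ hD'
  rw [hzD, ha, hb]
  show κ (el a b) * ι D = _
  rw [hικ, ← map_mul]
  congr 1
  unfold el
  rw [map_mul, map_mul]
  ring

theorem dedekind (h2 : (2 : K) ≠ 0) (hodd : Odd F.natDegree) (hsq : Squarefree F) :
    IsDedekindDomain (CR F) := by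
  have hdom := isDomain hodd
  have hfin : Module.Finite K[X] (CR F) := (monicF F).finite_adjoinRoot
  have hinj : FaithfulSMul K[X] (CR F) := (faithfulSMul_iff_algebraMap_injective _ _).2 pp_inj
  rw [isDedekindDomain_iff (CR F) (FractionRing (CR F))]
  refine ⟨inferInstance, IsNoetherianRing.of_finite K[X] (CR F),
    Ring.DimensionLEOne.of_isIntegral K[X] (CR F), fun {z} hz => int_closed h2 hodd hsq _ z hz⟩

end

end Pool.Agent.TH943.HJ
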