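import Pool.Agent.TH943.HJ.Ind

/-!
The descent: a relation between the classes of the points is twice a relation.
-/

set_option autoImplicit false
set_option maxHeartbeats 1000000

open Polynomial

namespace Pool.Agent.TH943.HJ

section

variable {K : Type} [Field K] {F : K[X]} {ι : Type} [Fintype ι]

/-- The divisors `g i = 0`, `y = w i` on the curve, over disjoint sets of the line and away from the
points with `y = 0`. -/
structure Pts (F : K[X]) (g w : ι → K[X]) : Prop where
  monic : ∀ i, (g i).Monic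
  dvd : ∀ i, g i ∣ F - w i ^ 2
  cop : ∀ i, IsCoprime (g i) (w i)
  pw : ∀ i j, i ≠ j → IsCoprime (g i) (g j)

variable {g w : ι → K[X]}

/-- the ideal of a combination with exponents `e i` -/
noncomputable def JJ (F : K[X]) (g w : ι → K[X]) (e : ι → ℕ) : Ideal (CR F) :=
  ∏ i, pid F (g i) (w i) ^ e i

theorem JJ_mul_cj (h2 : (2 : K) ≠ 0) (hP : Pts F g w) (e : ι → ℕ) :
    JJ F g w e * Ideal.map (cj F) (JJ F g w e) = Ideal.span {pp (∏ i, g i ^ e i)} := by
  unfold JJ
  have h1 : Ideal.map (cj F) (∏ i, pid F (g i) (w i) ^ e i) =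
      ∏ i, pid F (g i) (-w i) ^ e i := by
    rw [← Ideal.mapHom_apply, map_prod]
    refine Finset.prod_congr rfl fun i _ => ?_
    rw [map_pow, Ideal.mapHom_apply, map_cj]
  rw [h1, ← Finset.prod_mul_distrib]
  have h3 : ∀ i, pid F (g i) (w i) ^ e i * pid F (g i) (-w i) ^ e i =
      Ideal.span {pp (g i ^ e i)} := by
    intro i
    rw [← mul_pow, pid_mul h2 (hP.dvd i) (hP.cop i), Ideal.span_singleton_pow, map_pow]
  rw [Finset.prod_congr rfl fun i _ => h3 i, Ideal.prod_span_singleton, map_prod]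

theorem norm_eq (h2 : (2 : K) ≠ 0) (hP : Pts F g w) (e : ι → ℕ) {W V : K[X]}
    (h : JJ F g w e = Ideal.span {el W V}) :
    ∃ c : K, c ≠ 0 ∧ W ^ 2 - F * V ^ 2 = C c * ∏ i, g i ^ e i := by
  have h1 := JJ_mul_cj h2 hP e
  rw [h, Ideal.map_span, Set.image_singleton, Ideal.span_singleton_mul_span_singleton,
    el_mul_cj] at h1
  obtain ⟨u, hu⟩ := (norm_assoc h1).symm
  obtain ⟨c, hc, hcu⟩ := Polynomial.isUnit_iff.1 u.isUnit
  refine ⟨c, hc.ne_zero, ?_⟩
  rw [← hu, hcu]
  ring

/-- the generator is primitive -/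
theorem prim (h2 : (2 : K) ≠ 0) (hP : Pts F g w) (e : ι → ℕ) {W V : K[X]}
    (h : JJ F g w e = Ideal.span {el W V}) : IsCoprime W V := by
  classical
  obtain ⟨c, hc, hN⟩ := norm_eq h2 hP e h
  have hPi : (∏ i, g i ^ e i) ≠ 0 :=
    Finset.prod_ne_zero_iff.2 fun i _ => pow_ne_zero _ (hP.monic i).ne_zero
  apply isCoprime_of_irreducible_dvd
  · rintro ⟨rfl, rfl⟩
    have : C c * ∏ i, g i ^ e i = 0 := by rw [← hN]; ring
    rcases mul_eq_zero.1 this with h | h
    · exact hc (C_eq_zero.1 h)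
    · exact hPi h
  · intro p hp hpW hpV
    have hpN : p ∣ ∏ i, g i ^ e i := by
      have h3 : p ∣ C c * ∏ i, g i ^ e i := by
        rw [← hN]
        exact dvd_sub ((dvd_pow hpW two_ne_zero)) ((dvd_pow hpV two_ne_zero).mul_left _)
      rcases hp.prime.dvd_or_dvd h3 with h4 | h4
      · exact absurd (isUnit_of_dvd_unit h4 (isUnit_C.2 (isUnit_iff_ne_zero.2 hc))) hp.not_isUnit
      · exact h4
    obtain ⟨i, _, hi⟩ := hp.prime.exists_mem_finset_dvd hpN
    have hpi : p ∣ g i := hp.prime.dvd_of_dvd_pow hi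
    have : Fact (Irreducible p) := ⟨hp⟩
    set E := AdjoinRoot p
    have hev : (X ^ 2 - C F : K[X][X]).eval₂ (AdjoinRoot.mk p) (-AdjoinRoot.mk p (w i)) = 0 := by
      rw [eval₂_sub, eval₂_pow, eval₂_X, eval₂_C, neg_sq, ← map_pow, ← map_sub,
        AdjoinRoot.mk_eq_zero]
      have h5 := hpi.trans (hP.dvd i)
      have h6 : w i ^ 2 - F = -(F - w i ^ 2) := by ring
      rw [h6]
      exact (dvd_neg).2 h5
    let ψ : CR F →+* AdjoinRoot p := AdjoinRoot.lift (AdjoinRoot.mk p) (-AdjoinRoot.mk p (w i)) hev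
    have ψp : ∀ q : K[X], ψ (pp q) = AdjoinRoot.mk p q := fun q =>
      AdjoinRoot.lift_of (i := AdjoinRoot.mk p) (h := hev) (x := q)
    have ψy : ψ (yy F) = -AdjoinRoot.mk p (w i) :=
      AdjoinRoot.lift_root (i := AdjoinRoot.mk p) hev
    have ψh : ∀ z ∈ JJ F g w e, ψ z = 0 := by
      intro z hz
      rw [h, Ideal.mem_span_singleton] at hz
      obtain ⟨u, rfl⟩ := hz
      rw [map_mul]
      have : ψ (el W V) = 0 := by
        unfold el
        rw [map_add, map_mul, ψp, ψp, AdjoinRoot.mk_eq_zero.2 hpW, AdjoinRoot.mk_eq_zero.2 hpV,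
          zero_mul, add_zero]
      rw [this, zero_mul]
    let z : CR F := ∏ j, (if j = i then yy F - pp (w j) else pp (g j)) ^ e j
    have hz : z ∈ JJ F g w e := by
      apply Ideal.prod_mem_prod
      intro j _
      apply Ideal.pow_mem_pow
      split_ifs
      · exact yy_mem_pid _ _
      · exact pp_mem_pid _ _
    have hψz := ψh z hz
    have hz2 : ψ z = ∏ j, (ψ (if j = i then yy F - pp (w j) else pp (g j))) ^ e j := by
      simp only [z, map_prod, map_pow]
    rw [hz2, Finset.prod_eq_zero_iff] at hψz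
    obtain ⟨j, _, hj⟩ := hψz
    have he0 : e j ≠ 0 := by
      intro h0
      rw [h0, pow_zero] at hj
      exact absurd hj one_ne_zero
    have hj' := (pow_eq_zero_iff he0).1 hj
    by_cases hji : j = i
    · rw [if_pos hji, map_sub, ψp, ψy, hji] at hj'
      have h7 : AdjoinRoot.mk p (2 * w i) = 0 := by
        rw [map_mul, map_ofNat]
        linear_combination -hj'
      rw [AdjoinRoot.mk_eq_zero] at h7
      have hu2 : IsUnit (2 : K[X]) := by
        have : (2 : K[X]) = C 2 := by rw [map_ofNat]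
        rw [this]
        exact isUnit_C.2 (isUnit_iff_ne_zero.2 h2)
      exact hp.not_isUnit ((hP.cop i).isUnit_of_dvd' hpi ((hu2.dvd_mul_left).1 h7))
    · rw [if_neg hji, ψp, AdjoinRoot.mk_eq_zero] at hj'
      exact hp.not_isUnit ((hP.pw j i hji).isUnit_of_dvd' hj' hpi)

theorem isUnit_two (h2 : (2 : K) ≠ 0) : IsUnit (2 : K[X]) := by
  have : (2 : K[X]) = C 2 := by rw [map_ofNat]
  rw [this]
  exact isUnit_C.2 (isUnit_iff_ne_zero.2 h2)

/-- a function whose divisor is twice a divisor is a square up to a function of `x` -/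
theorem sq_of_norm_sq (h2 : (2 : K) ≠ 0) (hF : Irreducible F) {W V G : K[X]}
    (hWV : IsCoprime W V) (hN : W ^ 2 - F * V ^ 2 = G ^ 2) :
    ∃ (B R : K[X]) (κ : K), κ ≠ 0 ∧ R ≠ 0 ∧ B = C κ * R ^ 2 ∧
      (el B V : CR F) * el B V = pp (C (2 * κ)) * (pp R * pp R) * el W V := by
  -- reduce to the case where `F` divides `W - G`
  have key : ∀ G : K[X], W ^ 2 - F * V ^ 2 = G ^ 2 → F ∣ W - G →
      ∃ (B R : K[X]) (κ : K), κ ≠ 0 ∧ R ≠ 0 ∧ B = C κ * R ^ 2 ∧
      (el B V : CR F) * el B V = pp (C (2 * κ)) * (pp R * pp R) * el W V := by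
    intro G hN hd
    obtain ⟨A, hA⟩ := hd
    have hAB : A * (W + G) = V ^ 2 := by
      apply mul_left_cancel₀ hF.ne_zero
      linear_combination hN - (W + G) * hA
    have hcop : IsCoprime A (W + G) := by
      have hne : W + G ≠ 0 := by
        intro h0
        rw [h0, mul_zero] at hAB
        have hV : V = 0 := pow_eq_zero_iff (two_ne_zero) |>.1 hAB.symm
        rw [hV, isCoprime_zero_right] at hWV
        have h3 : F * A = 2 * W := by linear_combination -hA - h0
        have h4 : F ∣ 2 * W := ⟨A, h3.symm⟩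
        exact hF.not_isUnit (isUnit_of_dvd_unit h4 ((isUnit_two h2).mul hWV))
      apply isCoprime_of_irreducible_dvd
      · rintro ⟨_, h0⟩
        exact hne h0
      · intro p hp hpA hpB
        have h3 : p ∣ W := by
          have h4 : p ∣ 2 * W := by
            have h5 : 2 * W = F * A + (W + G) := by linear_combination hA
            rw [h5]
            exact dvd_add (hpA.mul_left _) hpB
          exact ((isUnit_two h2).dvd_mul_left).1 h4
        have h4 : p ∣ V := by
          apply hp.prime.dvd_of_dvd_pow (n := 2)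
          rw [← hAB]
          exact hpA.mul_right _
        exact hp.not_isUnit (hWV.isUnit_of_dvd' h3 h4)
    obtain ⟨R, hR⟩ := exists_associated_pow_of_mul_eq_pow' hcop.symm (k := 2) (c := V) (by
      rw [← hAB]; ring)
    obtain ⟨u, hu⟩ := hR
    obtain ⟨κ, hκ, hκu⟩ := Polynomial.isUnit_iff.1 u.isUnit
    have hB : W + G = C κ * R ^ 2 := by
      rw [← hu, ← hκu]
      ring
    have hne : W + G ≠ 0 := by
      intro h0
      rw [h0] at hcop
      rw [h0, mul_zero] at hAB
      have hV : V = 0 := pow_eq_zero_iff (two_ne_zero) |>.1 hAB.symm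
      rw [hV, isCoprime_zero_right] at hWV
      have h3 : F * A = 2 * W := by linear_combination -hA - h0
      have h4 : F ∣ 2 * W := ⟨A, h3.symm⟩
      exact hF.not_isUnit (isUnit_of_dvd_unit h4 ((isUnit_two h2).mul hWV))
    refine ⟨W + G, R, κ, hκ.ne_zero, ?_, hB, ?_⟩
    · rintro rfl
      rw [hB] at hne
      exact hne (by ring)
    · have e1 : (el (W + G) V : CR F) * el (W + G) V = pp (2 * (W + G)) * el W V := by
        rw [← el_left (2 * (W + G)), el_mul, el_mul]
        congr 1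
        · linear_combination -hN
        · ring
      rw [e1, hB]
      simp only [map_mul, map_pow, map_ofNat]
      ring
  rcases hF.prime.dvd_or_dvd (show F ∣ (W - G) * (W + G) from
    ⟨V ^ 2, by linear_combination hN⟩) with h | h
  · exact key G hN h
  · exact key (-G) (by rw [neg_sq]; exact hN) (by rw [sub_neg_eq_add]; exact h)

theorem JJ_ne {g : ι → K[X]} (hg : ∀ i, g i ≠ 0) (w : ι → K[X]) (e : ι → ℕ)
    [IsDomain (CR F)] : JJ F g w e ≠ ⊥ := by
  unfold JJ
  rw [← Ideal.zero_eq_bot, Finset.prod_ne_zero_iff]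
  intro i _
  exact pow_ne_zero _ (pid_ne (hg i) (w i))

/-- the descent step for ideals -/
theorem half (h2 : (2 : K) ≠ 0) (hodd : Odd F.natDegree) (hF : Irreducible F)
    [IsDedekindDomain (CR F)] (hP : Pts F g w) (e : ι → ℕ)
    (h : (JJ F g w (fun i => 2 * e i)).IsPrincipal) :
    ∃ x y : CR F, x ≠ 0 ∧ y ≠ 0 ∧ Ideal.span {x} * JJ F g w e = Ideal.span {y} := by
  obtain ⟨z, hz⟩ := h
  rw [Ideal.submodule_span_eq] at hz
  obtain ⟨W, V, rfl⟩ := exists_el z
  obtain ⟨c, hc, hN⟩ := norm_eq h2 hP _ hz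
  have hWV := prim h2 hP _ hz
  set Q : K[X] := ∏ i, g i ^ e i with hQ
  have hQm : Q.Monic := monic_prod_of_monic _ _ fun i _ => (hP.monic i).pow _
  have hQ2 : ∏ i, g i ^ (2 * e i) = Q ^ 2 := by
    rw [hQ, ← Finset.prod_pow]
    exact Finset.prod_congr rfl fun i _ => by rw [← pow_mul, mul_comm]
  rw [hQ2] at hN
  have hne : W ^ 2 - F * V ^ 2 ≠ 0 := by
    rw [hN]
    exact mul_ne_zero (C_ne_zero.2 hc) (pow_ne_zero 2 hQm.ne_zero)
  have hev : Even (W ^ 2 - F * V ^ 2).natDegree := by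
    rw [hN, natDegree_C_mul hc, natDegree_pow]
    exact even_two_mul _
  obtain ⟨hlead, hW0⟩ := lead_sq hodd hev hne
  have hcs : c = W.leadingCoeff ^ 2 := by
    rw [← hlead, hN, leadingCoeff_mul, leadingCoeff_C, leadingCoeff_pow, hQm.leadingCoeff,
      one_pow, mul_one]
  have hN2 : W ^ 2 - F * V ^ 2 = (C W.leadingCoeff * Q) ^ 2 := by
    rw [hN, hcs, map_pow]
    ring
  obtain ⟨B, R, κ, hκ, hR, hB, hid⟩ := sq_of_norm_sq h2 hF hWV hN2
  have hu : IsUnit (pp (C (2 * κ)) : CR F) :=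
    (isUnit_C.2 (isUnit_iff_ne_zero.2 (mul_ne_zero h2 hκ))).map _
  have hB0 : B ≠ 0 := by
    rw [hB]
    exact mul_ne_zero (C_ne_zero.2 hκ) (pow_ne_zero 2 hR)
  have hJ2 : JJ F g w (fun i => 2 * e i) = JJ F g w e ^ 2 := by
    unfold JJ
    rw [← Finset.prod_pow]
    exact Finset.prod_congr rfl fun i _ => by rw [← pow_mul, mul_comm]
  have hsq : (Ideal.span {(el B V : CR F)}) ^ 2 = (Ideal.span {(pp R : CR F)} * JJ F g w e) ^ 2 := by
    rw [mul_pow, ← hJ2, hz, Ideal.span_singleton_pow, Ideal.span_singleton_pow,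
      Ideal.span_singleton_mul_span_singleton, sq (el B V), hid, Ideal.span_singleton_eq_span_singleton]
    refine ⟨hu.unit⁻¹, ?_⟩
    have h5 : (pp (C (2 * κ)) : CR F) * ((hu.unit⁻¹ : (CR F)ˣ) : CR F) = 1 := hu.mul_val_inv
    linear_combination (pp R * pp R * el W V) * h5
  refine ⟨pp R, el B V, ?_, ?_, ?_⟩
  · intro h0
    exact hR ((injective_iff_map_eq_zero _).1 pp_inj _ h0)
  · intro h0
    exact hB0 (el_eq_zero h0).1
  · apply dvd_antisymm
    · rw [← UniqueFactorizationMonoid.pow_dvd_pow_iff_dvd (n := 2) two_ne_zero, hsq]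
    · rw [← UniqueFactorizationMonoid.pow_dvd_pow_iff_dvd (n := 2) two_ne_zero, hsq]

end

end Pool.Agent.TH943.HJ
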