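import Pool.Agent.TH943.HJ.Rank

/-!
The family of twists for the Dickson polynomials.
-/

set_option autoImplicit false
set_option maxHeartbeats 1000000

open Polynomial

namespace Pool.Agent.TH943.HJ

open Pool.Agent.W313.Hyp

section dick

variable {k : Type} [Field k]

/-- The Dickson polynomial, with `D(x + 1 / x) = x ^ n + x ^ (-n)`. -/
noncomputable def Dn (k : Type) [Field k] (n : ℕ) : k[X] := dickson 1 (1 : k) n

theorem Dn_spec (n : ℕ) : (Dn k (n + 1)).Monic ∧ (Dn k (n + 1)).natDegree = n + 1 := by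
  induction n using Nat.strong_induction_on with
  | _ n ih =>
  match n with
  | 0 =>
    have : Dn k (0 + 1) = X := dickson_one _ _
    rw [this]
    exact ⟨monic_X, natDegree_X⟩
  | 1 =>
    have h1 : Dn k (1 + 1) = X ^ 2 - C 2 := by
      unfold Dn
      rw [dickson_two]
      congr 1
      rw [map_ofNat, map_one, Nat.cast_one]
      ring
    rw [h1]
    exact ⟨monic_X_pow_sub_C _ two_ne_zero, natDegree_X_pow_sub_C⟩
  | (m + 2) =>
    obtain ⟨h1, h2⟩ := ih (m + 1) (by omega)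
    obtain ⟨h3, h4⟩ := ih m (by omega)
    have h5 : Dn k (m + 2 + 1) = X * Dn k (m + 1 + 1) - Dn k (m + 1) := by
      unfold Dn
      rw [show m + 2 + 1 = (m + 1) + 2 from rfl, dickson_add_two, map_one, one_mul]
    have hm : (X * Dn k (m + 1 + 1)).Monic := monic_X.mul h1
    have hd : (X * Dn k (m + 1 + 1)).natDegree = m + 2 + 1 := by
      rw [monic_X.natDegree_mul h1, natDegree_X, h2]
      omega
    have hlt : (Dn k (m + 1)).degree < (X * Dn k (m + 1 + 1)).degree := by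
      apply degree_lt_degree
      rw [hd, h4]
      omega
    rw [h5]
    refine ⟨hm.sub_of_left hlt, ?_⟩
    rw [natDegree_sub_eq_left_of_natDegree_lt (by rw [hd, h4]; omega), hd]

theorem Dn_monic {n : ℕ} (hn : 0 < n) : (Dn k n).Monic := by
  obtain ⟨m, rfl⟩ : ∃ m, n = m + 1 := ⟨n - 1, by omega⟩
  exact (Dn_spec m).1

theorem Dn_natDegree {n : ℕ} (hn : 0 < n) : (Dn k n).natDegree = n := by
  obtain ⟨m, rfl⟩ : ∃ m, n = m + 1 := ⟨n - 1, by omega⟩
  exact (Dn_spec m).2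

/-- the index set -/
abbrev Mu (k : Type) [Field k] (n : ℕ) : Type := {z : k // z ∈ nthRootsFinset n (1 : k)}

variable {Ω : Type} [Field Ω] [Algebra k Ω] {ζ : k} {n : ℕ}

theorem mu_pow (hn : 0 < n) (z : Mu k n) : z.1 ^ n = 1 := (mem_nthRootsFinset hn 1).1 z.2

theorem mu_ne (hn : 0 < n) (z : Mu k n) : z.1 ≠ 0 := by
  intro h
  have h1 := mu_pow hn z
  rw [h, zero_pow hn.ne'] at h1
  exact zero_ne_one h1

theorem card_Mu (hζ : IsPrimitiveRoot ζ n) : Fintype.card (Mu k n) = n := by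
  rw [Fintype.card_coe, hζ.card_nthRootsFinset]

theorem prod_one (hζ : IsPrimitiveRoot ζ n) (hn : 0 < n) (a : Ω) :
    ∏ z : Mu k n, (a - algebraMap k Ω z.1) = a ^ n - 1 := by
  have h1 := X_pow_sub_one_eq_prod hn hζ
  have h2 := congrArg (aeval a) h1
  rw [map_sub, map_pow, aeval_X, map_one, map_prod] at h2
  rw [h2]
  refine (Finset.prod_coe_sort (nthRootsFinset n (1 : k)) (fun z => a - algebraMap k Ω z)).trans ?_
  refine Finset.prod_congr rfl fun z _ => ?_
  rw [map_sub, aeval_X, aeval_C]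

theorem prod_two (hζ : IsPrimitiveRoot ζ n) (hn : 0 < n) (x y : Ω) (hy : y ≠ 0) :
    ∏ z : Mu k n, (x - algebraMap k Ω z.1 * y) = x ^ n - y ^ n := by
  have h1 := prod_one (Ω := Ω) hζ hn (x / y)
  have h2 : ∏ z : Mu k n, (x - algebraMap k Ω z.1 * y) =
      y ^ n * ∏ z : Mu k n, (x / y - algebraMap k Ω z.1) := by
    have h3 : (y ^ n : Ω) = ∏ _z : Mu k n, y := by
      rw [Finset.prod_const, Finset.card_univ, card_Mu hζ]
    rw [h3, ← Finset.prod_mul_distrib]
    refine Finset.prod_congr rfl fun z _ => ?_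
    field_simp
  rw [h2, h1, div_pow, mul_sub, mul_one, mul_div_cancel₀ _ (pow_ne_zero n hy)]

theorem prod_neg_inv (hζ : IsPrimitiveRoot ζ n) (hn : Odd n) :
    ∏ z : Mu k n, (-(algebraMap k Ω z.1)⁻¹) = -1 := by
  have h1 := prod_one (Ω := Ω) hζ hn.pos 0
  rw [zero_pow hn.pos.ne', zero_sub] at h1
  have h2 : ∏ z : Mu k n, (-(algebraMap k Ω z.1)⁻¹) =
      (∏ z : Mu k n, (0 - algebraMap k Ω z.1))⁻¹ := by
    rw [← Finset.prod_inv_distrib]
    refine Finset.prod_congr rfl fun z _ => ?_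
    rw [zero_sub, inv_neg]
  rw [h2, h1, inv_neg, inv_one]

/-- the product formula -/
theorem dick_prod (hζ : IsPrimitiveRoot ζ n) (hn : Odd n) (u v w : Ω) (hu : u ≠ 0) (hw : w ≠ 0) :
    ∏ z : Mu k n, (u * v * (w + w⁻¹) - algebraMap k Ω z.1 * u ^ 2 -
        (algebraMap k Ω z.1)⁻¹ * v ^ 2) =
      u ^ n * v ^ n * (w ^ n + w⁻¹ ^ n) - u ^ (2 * n) - v ^ (2 * n) := by
  have h1 : ∀ z : Mu k n, u * v * (w + w⁻¹) - algebraMap k Ω z.1 * u ^ 2 -
      (algebraMap k Ω z.1)⁻¹ * v ^ 2 = (-(algebraMap k Ω z.1)⁻¹) *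
        ((v * w - algebraMap k Ω z.1 * u) * (v * w⁻¹ - algebraMap k Ω z.1 * u)) := by
    intro z
    have hz : algebraMap k Ω z.1 ≠ 0 := by
      rw [Ne, map_eq_zero]
      exact mu_ne hn.pos z
    field_simp
    ring
  rw [Finset.prod_congr rfl fun z _ => h1 z, Finset.prod_mul_distrib, Finset.prod_mul_distrib,
    prod_neg_inv hζ hn, prod_two hζ hn.pos _ _ hu, prod_two hζ hn.pos _ _ hu, mul_pow, mul_pow]
  have h2 : w ^ n * w⁻¹ ^ n = 1 := by
    rw [← mul_pow, mul_inv_cancel₀ hw, one_pow]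
  rw [pow_mul', pow_mul']
  linear_combination (-(v ^ n) ^ 2) * h2

theorem eval_Dn {w : Ω} (hw : w ≠ 0) (n : ℕ) :
    aeval (w + w⁻¹) (Dn k n) = w ^ n + w⁻¹ ^ n := by
  rw [← eval_map_algebraMap]
  unfold Dn
  rw [map_dickson, map_one]
  exact dickson_one_one_eval_add_inv w w⁻¹ (mul_inv_cancel₀ hw) n

theorem exists_add_inv [IsAlgClosed Ω] (x : Ω) : ∃ w : Ω, w ≠ 0 ∧ w + w⁻¹ = x := by
  obtain ⟨w, hw⟩ := IsAlgClosed.exists_root (X ^ 2 - C x * X + C 1 : Polynomial Ω) (by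
    have : (X ^ 2 - C x * X + C 1 : Polynomial Ω).natDegree = 2 := by compute_degree!
    intro h
    have h2 := natDegree_eq_of_degree_eq_some (n := 0) h
    omega)
  rw [IsRoot.def] at hw
  simp at hw
  have hw0 : w ≠ 0 := by
    rintro rfl
    simp at hw
  refine ⟨w, hw0, ?_⟩
  field_simp
  linear_combination hw

end dick

end Pool.Agent.TH943.HJ
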