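import Pool.Agent.TH943.HJ.Dick

/-!
The family of twists for the Dickson polynomials: the splitting.
-/

set_option autoImplicit false
set_option maxHeartbeats 1000000

open Polynomial

namespace Pool.Agent.TH943.HJ

open Pool.Agent.W313.Hyp

section dick

variable {k : Type} [Field k] {ζ : k} {n : ℕ}

/-- the twisting polynomial -/
noncomputable def RR (n : ℕ) (c a b : k[X]) : k[X] :=
  c ^ (2 * n) * a ^ (4 * n) + b ^ (4 * n) - X * c ^ n * a ^ (2 * n) * b ^ (2 * n)

/-- the factors -/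
noncomputable def GG (n : ℕ) (c a b : k[X]) (z : Mu k n) : k[X][X] :=
  C (c ^ 2 * a ^ 2 * b ^ 2) * X - C (c * (C z.1 * c ^ 2 * a ^ 4 + C z.1⁻¹ * b ^ 4))

theorem prod_GG (hζ : IsPrimitiveRoot ζ n) (hn : Odd n) {c a b : k[X]} (hc : c ≠ 0) (ha : a ≠ 0) :
    ∏ z : Mu k n, GG n c a b z =
      C (((c * a * b) ^ n) ^ 2) * ((Dn k n).map C - C X) -
        C (c * RR n c a b * (c ^ ((n - 1) / 2)) ^ 2) := by
  have e0 : (C (((c * a * b) ^ n) ^ 2) * ((Dn k n).map C - C X) -
      C (c * RR n c a b * (c ^ ((n - 1) / 2)) ^ 2) : k[X][X]) =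
      C (c ^ n) * (C (c ^ n * a ^ (2 * n) * b ^ (2 * n)) * (Dn k n).map C -
        C (c ^ (2 * n) * a ^ (4 * n) + b ^ (4 * n))) := by
    have e1 : ((c * a * b) ^ n) ^ 2 = c ^ n * (c ^ n * a ^ (2 * n) * b ^ (2 * n)) := by
      rw [mul_pow, mul_pow, mul_pow, mul_pow, ← pow_mul, ← pow_mul, ← pow_mul, mul_comm n 2,
        two_mul, pow_add]
      ring
    have e2 : c * (c ^ ((n - 1) / 2)) ^ 2 = c ^ n := by
      rw [← pow_mul, ← pow_succ']
      congr 1
      obtain ⟨m, hm⟩ := hn
      omega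
    have e3 : c * RR n c a b * (c ^ ((n - 1) / 2)) ^ 2 = c ^ n * RR n c a b := by
      rw [← e2]
      ring
    rw [e1, e3]
    unfold RR
    simp only [map_add, map_sub, map_mul]
    ring
  rw [e0]
  let Ω := AlgebraicClosure (RatFunc k)
  let φ : k[X] →+* Ω := (algebraMap (RatFunc k) Ω).comp (algebraMap k[X] (RatFunc k))
  have hφ : Function.Injective φ :=
    (algebraMap (RatFunc k) Ω).injective.comp (IsFractionRing.injective k[X] (RatFunc k))
  have hφC : ∀ c : k, φ (C c) = algebraMap k Ω c := by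
    intro c
    have h1 : algebraMap k[X] (RatFunc k) (C c) = algebraMap k (RatFunc k) c := rfl
    show algebraMap (RatFunc k) Ω (algebraMap k[X] (RatFunc k) (C c)) = _
    rw [h1, ← IsScalarTower.algebraMap_apply]
  apply map_injective φ hφ
  have hinf : Infinite Ω := IsAlgClosed.instInfinite
  apply Polynomial.funext
  intro x
  obtain ⟨w, hw, rfl⟩ := exists_add_inv x
  have hφa : φ c * φ a ^ 2 ≠ 0 := by
    refine mul_ne_zero ?_ (pow_ne_zero 2 ?_)
    · rw [Ne, map_eq_zero_iff φ hφ]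
      exact hc
    · rw [Ne, map_eq_zero_iff φ hφ]
      exact ha
  have h1 := dick_prod (Ω := Ω) hζ hn (φ c * φ a ^ 2) (φ b ^ 2) w hφa hw
  have e2 : (((Dn k n).map C).map φ).eval (w + w⁻¹) = w ^ n + w⁻¹ ^ n := by
    rw [map_map]
    have h3 : φ.comp C = algebraMap k Ω := RingHom.ext hφC
    rw [h3, eval_map_algebraMap, eval_Dn hw]
  have e3 : (map φ (C (c ^ n) * (C (c ^ n * a ^ (2 * n) * b ^ (2 * n)) * (Dn k n).map C -
      C (c ^ (2 * n) * a ^ (4 * n) + b ^ (4 * n))))).eval (w + w⁻¹) =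
      φ c ^ n * ((φ c * φ a ^ 2) ^ n * (φ b ^ 2) ^ n * (w ^ n + w⁻¹ ^ n) -
        (φ c * φ a ^ 2) ^ (2 * n) - (φ b ^ 2) ^ (2 * n)) := by
    rw [Polynomial.map_mul, Polynomial.map_sub, Polynomial.map_mul, map_C, map_C, map_C, eval_mul,
      eval_sub, eval_mul, eval_C, eval_C, eval_C, e2]
    simp only [map_add, map_mul, map_pow]
    rw [mul_pow, mul_pow, ← pow_mul, ← pow_mul, ← pow_mul, ← pow_mul,
      show 2 * (2 * n) = 4 * n by ring]
    ring
  have h5 : (φ c ^ n : Ω) = ∏ _z : Mu k n, φ c := by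
    rw [Finset.prod_const, Finset.card_univ, card_Mu hζ]
  rw [e3, ← h1, Polynomial.map_prod, eval_prod, h5, ← Finset.prod_mul_distrib]
  refine Finset.prod_congr rfl fun z _ => ?_
  unfold GG
  rw [Polynomial.map_sub, Polynomial.map_mul, map_C, map_C, map_X, eval_sub, eval_mul, eval_C,
    eval_C, eval_X]
  simp only [map_add, map_mul, map_pow, hφC, map_inv₀]
  ring

/-- The derivative of a Dickson polynomial and the value do not vanish together. -/
theorem Dn_sep' (Ω : Type) [Field Ω] [Algebra k Ω] [IsAlgClosed Ω] (hζ : IsPrimitiveRoot ζ n)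
    (hn : Odd n) {P : k[X]} (hP1 : P.eval 2 ≠ 0)
    (hP2 : P.eval (-2) ≠ 0) : IsCoprime (P.comp (Dn k n)) (derivative (Dn k n)) := by
  refine (isCoprime_iff_aeval_ne_zero_of_isAlgClosed k Ω _ _).2 fun x => ?_
  by_contra hcon
  push Not at hcon
  obtain ⟨h1, h2⟩ := hcon
  obtain ⟨w, hw, rfl⟩ := exists_add_inv x
  rw [aeval_comp, eval_Dn hw] at h1
  -- the product formula for `Dn - c`
  have hprod : ((Dn k n).map (algebraMap k Ω) - C (w ^ n + w⁻¹ ^ n)) =
      ∏ z : Mu k n, (X - C (algebraMap k Ω z.1 * w + (algebraMap k Ω z.1)⁻¹ * w⁻¹)) := by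
    have hinf : Infinite Ω := IsAlgClosed.instInfinite
    apply Polynomial.funext
    intro y
    obtain ⟨v, hv, rfl⟩ := exists_add_inv y
    have h3 := dick_prod (Ω := Ω) hζ hn w 1 v hw hv
    rw [eval_sub, eval_C, eval_map_algebraMap, eval_Dn hv, eval_prod]
    have h4 : ∏ z : Mu k n, (w * 1 * (v + v⁻¹) - algebraMap k Ω z.1 * w ^ 2 -
        (algebraMap k Ω z.1)⁻¹ * 1 ^ 2) = w ^ n * ∏ z : Mu k n, (X - C (algebraMap k Ω z.1 * w +
          (algebraMap k Ω z.1)⁻¹ * w⁻¹)).eval (v + v⁻¹) := by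
      have h5 : (w ^ n : Ω) = ∏ _z : Mu k n, w := by
        rw [Finset.prod_const, Finset.card_univ, card_Mu hζ]
      rw [h5, ← Finset.prod_mul_distrib]
      refine Finset.prod_congr rfl fun z _ => ?_
      have hz : algebraMap k Ω z.1 ≠ 0 := by
        rw [Ne, map_eq_zero]
        exact mu_ne hn.pos z
      rw [eval_sub, eval_X, eval_C]
      field_simp
      ring
    rw [h4] at h3
    apply mul_left_cancel₀ (pow_ne_zero n hw)
    rw [h3]
    have h6 : w ^ n * w⁻¹ ^ n = 1 := by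
      rw [← mul_pow, mul_inv_cancel₀ hw, one_pow]
    rw [pow_mul', one_pow, one_pow]
    linear_combination -h6
  -- the roots are different
  have hinj : Function.Injective (fun z : Mu k n =>
      algebraMap k Ω z.1 * w + (algebraMap k Ω z.1)⁻¹ * w⁻¹) := by
    intro z z' hzz
    by_contra hne
    have hz : algebraMap k Ω z.1 ≠ 0 := by
      rw [Ne, map_eq_zero]
      exact mu_ne hn.pos z
    have hz' : algebraMap k Ω z'.1 ≠ 0 := by
      rw [Ne, map_eq_zero]
      exact mu_ne hn.pos z'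
    have hne' : algebraMap k Ω z.1 - algebraMap k Ω z'.1 ≠ 0 := by
      rw [sub_ne_zero]
      intro h
      exact hne (Subtype.ext ((algebraMap k Ω).injective h))
    have h3 : algebraMap k Ω z.1 * algebraMap k Ω z'.1 * w ^ 2 = 1 := by
      apply mul_left_cancel₀ hne'
      have h4 : algebraMap k Ω z.1 * w + (algebraMap k Ω z.1)⁻¹ * w⁻¹ =
        algebraMap k Ω z'.1 * w + (algebraMap k Ω z'.1)⁻¹ * w⁻¹ := hzz
      field_simp at h4
      linear_combination h4
    have hzn : (algebraMap k Ω z.1) ^ n = 1 := by rw [← map_pow, mu_pow hn.pos, map_one]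
    have hzn' : (algebraMap k Ω z'.1) ^ n = 1 := by rw [← map_pow, mu_pow hn.pos, map_one]
    have h5 : (w ^ n) ^ 2 = 1 := by
      have h6 := congrArg (· ^ n) h3
      simp only [mul_pow, hzn, hzn', one_mul, one_pow] at h6
      rw [← h6]
      ring
    have h7 : (w ^ n - 1) * (w ^ n + 1) = 0 := by linear_combination h5
    rcases mul_eq_zero.1 h7 with h8 | h8
    · have h9 : w ^ n = 1 := by linear_combination h8
      rw [inv_pow, h9, inv_one] at h1
      apply hP1
      apply (algebraMap k Ω).injective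
      rw [map_zero, ← h1, ← aeval_algebraMap_apply_eq_algebraMap_eval, map_ofNat]
      norm_num
    · have h9 : w ^ n = -1 := by linear_combination h8
      rw [inv_pow, h9, inv_neg, inv_one] at h1
      apply hP2
      apply (algebraMap k Ω).injective
      rw [map_zero, ← h1, ← aeval_algebraMap_apply_eq_algebraMap_eval, map_neg, map_ofNat]
      norm_num
  have hsep : ((Dn k n).map (algebraMap k Ω) - C (w ^ n + w⁻¹ ^ n)).Separable := by
    rw [hprod]
    exact separable_prod_X_sub_C_iff.2 hinj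
  unfold Separable at hsep
  rw [derivative_sub, derivative_C, sub_zero] at hsep
  obtain ⟨p, q, hpq⟩ := hsep
  have h8 := congrArg (eval (w + w⁻¹)) hpq
  rw [eval_add, eval_mul, eval_mul, eval_sub, eval_C, eval_map_algebraMap, eval_Dn hw, sub_self,
    mul_zero, zero_add, derivative_map, eval_map_algebraMap, h2, mul_zero, eval_one] at h8
  exact zero_ne_one h8

theorem Dn_sep (hζ : IsPrimitiveRoot ζ n) (hn : Odd n) {P : k[X]} (hP1 : P.eval 2 ≠ 0)
    (hP2 : P.eval (-2) ≠ 0) : IsCoprime (P.comp (Dn k n)) (derivative (Dn k n)) :=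
  Dn_sep' (AlgebraicClosure k) hζ hn hP1 hP2

end dick

end Pool.Agent.TH943.HJ
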