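import Pool.Agent.TH943.HJ.Bij
import Pool.Agent.W313.Hyp.Bound

/-!
The identity modulo two for the `L`-function of the twists of `y ^ 2 = f(x) - t`.
-/

set_option autoImplicit false
set_option maxHeartbeats 1000000

open PowerSeries

namespace Pool.Agent.TH943.HJ

open Pool.Agent.W313.Hyp Pool.Agent.W343.BSD

section

variable {k : Type} [Field k]

/-- The polynomial `D(t) (f(x) - t)` over the residue field at `P`. -/
noncomputable def tw (f D : Polynomial k) (P : MI k) : Polynomial (RF P) :=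
  Polynomial.C (AdjoinRoot.mk P.1 D) * fib f P

/-- The `L`-function of the Jacobian of `D(t) y ^ 2 = f(x) - t`: the product over the closed points
of the affine plane with `D(t) ≠ 0`. -/
noncomputable def LF (f D : Polynomial k) : PowerSeries ℤ :=
  eulerProd (fun z : (Σ P : {P : MI k // ¬ P.1 ∣ D}, MI (RF P.1)) =>
      z.1.1.1.natDegree * z.2.1.natDegree)
    (fun z => ptFactor (tw f D z.1.1) z.1.1.1.natDegree z.2)

theorem tw_ne {f D : Polynomial k} (hf : 0 < f.natDegree) {P : MI k} (hP : ¬ P.1 ∣ D) :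
    tw f D P ≠ 0 := by
  refine mul_ne_zero ?_ (fib_ne hf P)
  rw [Ne, Polynomial.C_eq_zero, AdjoinRoot.mk_eq_zero]
  exact hP

theorem dvd_tw {f D : Polynomial k} {P : MI k} (hP : ¬ P.1 ∣ D) (Q : MI (RF P)) :
    Q.1 ∣ tw f D P ↔ Q.1 ∣ fib f P := by
  unfold tw
  have h0 : AdjoinRoot.mk P.1 D ≠ 0 := by
    rw [Ne, AdjoinRoot.mk_eq_zero]
    exact hP
  have hu : IsUnit (Polynomial.C (AdjoinRoot.mk P.1 D)) :=
    Polynomial.isUnit_C.2 (isUnit_iff_ne_zero.2 h0)
  exact hu.dvd_mul_left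

variable [Finite k]

theorem facs_tw {f D : Polynomial k} (hf : 0 < f.natDegree) {P : MI k} (hP : ¬ P.1 ∣ D) :
    facs (tw f D P) = facs (fib f P) := by
  have := finRF P
  ext Q
  rw [mem_facs (tw_ne hf hP), mem_facs (fib_ne hf P), dvd_tw hP]

theorem LF_eq (f D : Polynomial k) [DecidablePred fun P : MI k => ¬ P.1 ∣ D] :
    LF f D = eulerProd (fun P : MI k => P.1.natDegree)
      (fun P => if ¬ P.1 ∣ D then locA (tw f D P) P.1.natDegree else 1) := by
  have hfin : ∀ P : MI k, Finite (RF P) := finRF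
  unfold LF
  rw [eulerProd_sigma (ι := {P : MI k // ¬ P.1 ∣ D}) (κ := fun P => MI (RF P.1))
    (d := fun P => P.1.1.natDegree) (e := fun P Q => Q.1.natDegree)
    (fun n => Set.Finite.of_finite_image (f := fun i : {P : MI k // ¬ P.1 ∣ D} => i.1)
      ((finite_deg_le (F := k) n).subset (by rintro _ ⟨i, hi, rfl⟩; exact hi))
      (Set.injOn_of_injective Subtype.val_injective))
    (fun P => MI.deg_pos P.1) (fun P n => finite_deg_le n) (fun P Q => MI.deg_pos Q) _
    (fun p => ptFactor_dvd _ _ _)]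
  exact eulerProd_subtype (fun P : MI k => ¬ P.1 ∣ D) (d := fun P => P.1.natDegree)
    (fun n => finite_deg_le (F := k) n) (f := fun P => locA (tw f D P) P.1.natDegree)
    (fun P _ => locA_dvd (tw f D P) (MI.deg_pos P))

omit [Finite k] in
theorem card_RF' (hq : ((Nat.card k : ℕ) : ZMod 2) = 1) (P : MI k) :
    ((Nat.card (RF P) : ℕ) : ZMod 2) = 1 := by
  have := fd1 P
  rw [Module.natCard_eq_pow_finrank (K := k) (V := RF P)]
  push_cast
  rw [hq, one_pow]

open Classical in
theorem identity (hq : ((Nat.card k : ℕ) : ZMod 2) = 1) {f D : Polynomial k}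
    (hf : 0 < f.natDegree) (hD : D ≠ 0) :
    red2 (LF f D) * ∏ P ∈ facs D, (1 + X ^ P.1.natDegree) =
      ∏ P ∈ facs D, ∏ R ∈ facs (P.1.comp f), (1 + X ^ R.1.natDegree) := by
  have hfin : ∀ P : MI k, Finite (RF P) := finRF
  have hfd := fun n => finite_deg_le (F := k) n
  set Φ : MI k → PowerSeries (ZMod 2) :=
    fun P => ∏ R ∈ facs (P.1.comp f), (1 + X ^ R.1.natDegree) with hΦ
  set W : MI k → PowerSeries (ZMod 2) :=
    fun P => red2 (if ¬ P.1 ∣ D then locA (tw f D P) P.1.natDegree else 1) with hW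
  set Z : MI k → PowerSeries (ZMod 2) := fun P => 1 + X ^ P.1.natDegree with hZ
  have hmem : ∀ P R : MI k, R ∈ facs (P.1.comp f) ↔ R.1 ∣ P.1.comp f :=
    fun P R => mem_facs (comp_ne hf P) R
  have hdeg : ∀ P R : MI k, R ∈ facs (P.1.comp f) → P.1.natDegree ≤ R.1.natDegree := by
    intro P R hR
    rw [hmem] at hR
    obtain ⟨Q, hQ, rfl⟩ := down_surj R hR
    rw [down_deg Q hQ]
    exact Nat.le_mul_of_pos_right _ (MI.deg_pos Q)
  have hZ1 : ∀ P : MI k, (X : PowerSeries (ZMod 2)) ^ P.1.natDegree ∣ Z P - 1 :=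
    fun P => dvd_one_add le_rfl
  have hΦ1 : ∀ P : MI k, (X : PowerSeries (ZMod 2)) ^ P.1.natDegree ∣ Φ P - 1 := by
    intro P
    have h := prod_congr_mod (facs (P.1.comp f))
      (fun R => (1 + X ^ R.1.natDegree : PowerSeries (ZMod 2))) (fun _ => 1) P.1.natDegree
      (fun R hR => dvd_one_add (hdeg P R hR))
    rwa [Finset.prod_const_one] at h
  have hloc : ∀ P : MI k, (X : PowerSeries ℤ) ^ P.1.natDegree ∣
      (if ¬ P.1 ∣ D then locA (tw f D P) P.1.natDegree else 1) - 1 := by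
    intro P
    split_ifs with hv
    · rw [sub_self]; exact dvd_zero _
    · exact locA_dvd (tw f D P) (MI.deg_pos P)
  have hW1 : ∀ P : MI k, (X : PowerSeries (ZMod 2)) ^ P.1.natDegree ∣ W P - 1 := by
    intro P
    have h3 := map_dvd red2 (hloc P)
    rwa [map_sub, map_one, map_pow, PowerSeries.map_X] at h3
  have hWS : ∀ P ∈ facs D, W P = 1 := by
    intro P hP
    rw [mem_facs hD] at hP
    show red2 (if ¬ P.1 ∣ D then locA (tw f D P) P.1.natDegree else 1) = 1
    rw [if_neg (not_not.2 hP), map_one]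
  have hgood : ∀ P, P ∉ facs D → Φ P * W P = Z P := by
    intro P hP
    rw [mem_facs hD] at hP
    have h1 := locA_mod (card_RF' hq P) (tw_ne hf hP) (MI.deg_pos P)
    have h2 : W P = red2 (locA (tw f D P) P.1.natDegree) := by
      show red2 (if ¬ P.1 ∣ D then locA (tw f D P) P.1.natDegree else 1) = _
      rw [if_pos hP]
    rw [h2, mul_comm, hΦ]
    show _ * ∏ R ∈ facs (P.1.comp f), (1 + X ^ R.1.natDegree) = 1 + X ^ P.1.natDegree
    rw [← h1, facs_tw hf hP, ← prod_local f P (fib_ne hf P) (comp_ne hf P)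
      (fun n => (1 + X ^ n : PowerSeries (ZMod 2)))]
  have hLS : red2 (LF f D) = eulerProd (fun P : MI k => P.1.natDegree) W := by
    rw [LF_eq f D, map_eulerProd hfd]
  have key := fin_factor (F := fun P => Φ P * W P) (W := Z) hfd
    (fun P => one_mod_mul (hΦ1 P) (hW1 P)) hZ1 (facs D) hgood
  have hEΦ : eulerProd (fun P : MI k => P.1.natDegree) Φ =
      eulerProd (fun P : MI k => P.1.natDegree) Z := by
    rw [hΦ]
    exact eulerProd_fiber hfd hfd hZ1 (fun P => facs (P.1.comp f))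
      (fun R => by
        obtain ⟨P, hP⟩ := exists_over (f := f) R
        exact ⟨P, (hmem P R).2 hP⟩)
      (fun P P' R hR hR' => over_unique R P P' ((hmem P R).1 hR) ((hmem P' R).1 hR')) hdeg
  rw [eulerProd_mul hfd hΦ1 hW1, hEΦ, ← hLS] at key
  have hne : eulerProd (fun P : MI k => P.1.natDegree) Z ≠ 0 := by
    intro h
    have h1 := hZ1
    have h2 : coeff 0 (eulerProd (fun P : MI k => P.1.natDegree) Z) = 1 := by
      have h3 := eulerProd_mod hfd hZ1 0 ∅ (fun P hP => by
        have := MI.deg_pos P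
        omega)
      rw [zero_add, pow_one, Finset.prod_empty, X_dvd_iff, map_sub, map_one, sub_eq_zero] at h3
      rw [coeff_zero_eq_constantCoeff_apply]
      exact h3
    rw [h, map_zero] at h2
    exact zero_ne_one h2
  have hTW : ∏ P ∈ facs D, (Φ P * W P) = ∏ P ∈ facs D, Φ P := by
    rw [Finset.prod_mul_distrib, Finset.prod_eq_one (fun v hv => hWS v hv), mul_one]
  rw [hTW] at key
  apply mul_left_cancel₀ hne
  rw [← key]
  ring

theorem order_bound (hq : ((Nat.card k : ℕ) : ZMod 2) = 1) {f D : Polynomial k}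
    (hf : 0 < f.natDegree) (hD : D ≠ 0) (m : ℕ) (G : Polynomial ℤ)
    (hG : LF f D = (((1 - Polynomial.C (Nat.card k : ℤ) * Polynomial.X) ^ m * G :
      Polynomial ℤ) : PowerSeries ℤ)) :
    m + ∑ P ∈ facs D, twoPart P.1.natDegree ≤
      ∑ P ∈ facs D, ∑ R ∈ facs (P.1.comp f), twoPart R.1.natDegree := by
  classical
  have hid := identity hq hf hD
  set GG : Polynomial (ZMod 2) := G.map (Int.castRingHom (ZMod 2)) with hGG
  have hred : red2 (LF f D) =
      (((1 + Polynomial.X) ^ m * GG : Polynomial (ZMod 2)) : PowerSeries (ZMod 2)) := by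
    rw [hG, red2_poly]
    congr 1
    rw [Polynomial.map_mul, Polynomial.map_pow, Polynomial.map_sub, Polynomial.map_one,
      Polynomial.map_mul, Polynomial.map_C, Polynomial.map_X]
    have h3 : (Int.castRingHom (ZMod 2)) (Nat.card k : ℤ) = 1 := by
      rw [eq_intCast, Int.cast_natCast, hq]
    rw [h3, map_one, one_mul, CharTwo.sub_eq_add]
  set A : Polynomial (ZMod 2) := ∏ P ∈ facs D, (1 + Polynomial.X ^ P.1.natDegree) with hA
  set B : Polynomial (ZMod 2) :=
    ∏ P ∈ facs D, ∏ R ∈ facs (P.1.comp f), (1 + Polynomial.X ^ R.1.natDegree) with hB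
  have eA : ((A : Polynomial (ZMod 2)) : PowerSeries (ZMod 2)) =
      ∏ P ∈ facs D, (1 + X ^ P.1.natDegree) := by
    rw [hA, coe_prod]
    exact Finset.prod_congr rfl fun v _ => coe_zf' _
  have eB : ((B : Polynomial (ZMod 2)) : PowerSeries (ZMod 2)) =
      ∏ P ∈ facs D, ∏ R ∈ facs (P.1.comp f), (1 + X ^ R.1.natDegree) := by
    rw [hB, coe_prod]
    refine Finset.prod_congr rfl fun v _ => ?_
    rw [coe_prod]
    exact Finset.prod_congr rfl fun P _ => coe_zf' _
  have hpoly : (1 + Polynomial.X) ^ m * GG * A = B := by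
    apply coe_inj2
    rw [Polynomial.coe_mul _ A, ← hred, eA, eB]
    exact hid
  have hA0 : ∀ P ∈ facs D, (1 + Polynomial.X ^ P.1.natDegree : Polynomial (ZMod 2)) ≠ 0 :=
    fun P _ => one_add_ne (MI.deg_pos P)
  have hB00 : ∀ P : MI k, ∀ R ∈ facs (P.1.comp f),
      (1 + Polynomial.X ^ R.1.natDegree : Polynomial (ZMod 2)) ≠ 0 :=
    fun _ R _ => one_add_ne (MI.deg_pos R)
  have hB0 : ∀ P ∈ facs D, ∏ R ∈ facs (P.1.comp f),
      (1 + Polynomial.X ^ R.1.natDegree : Polynomial (ZMod 2)) ≠ 0 :=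
    fun P _ => Finset.prod_ne_zero_iff.2 (hB00 P)
  have hBne : B ≠ 0 := Finset.prod_ne_zero_iff.2 hB0
  have hAne : A ≠ 0 := Finset.prod_ne_zero_iff.2 hA0
  have hL0 : (1 + Polynomial.X) ^ m * GG ≠ 0 := by
    intro h
    rw [h, zero_mul] at hpoly
    exact hBne hpoly.symm
  have hmu := congrArg mu hpoly
  rw [mu_mul hL0 hAne, mu_mul (left_ne_zero_of_mul hL0) (right_ne_zero_of_mul hL0),
    mu_pow one_add_X_ne, mu_one_add_X, mul_one] at hmu
  have m1 : mu A = ∑ P ∈ facs D, twoPart P.1.natDegree := by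
    rw [hA, mu_prod _ _ hA0]
    exact Finset.sum_congr rfl fun P _ => mu_one_add (MI.deg_pos P)
  have m2 : mu B = ∑ P ∈ facs D, ∑ R ∈ facs (P.1.comp f), twoPart R.1.natDegree := by
    rw [hB, mu_prod _ _ hB0]
    refine Finset.sum_congr rfl fun P _ => ?_
    rw [mu_prod _ _ (hB00 P)]
    exact Finset.sum_congr rfl fun R _ => mu_one_add (MI.deg_pos R)
  rw [m1, m2] at hmu
  omega

/-- the degrees of the points over `P` -/
theorem sum_over_le {f : Polynomial k} (hf : 0 < f.natDegree) (P : MI k)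
    (hsq : Squarefree (P.1.comp f)) (hmon : (P.1.comp f).Monic) :
    ∑ R ∈ facs (P.1.comp f), twoPart R.1.natDegree ≤ f.natDegree * twoPart P.1.natDegree := by
  have h1 := sum_facs hmon hsq
  rw [Polynomial.natDegree_comp] at h1
  have h2 : ∀ R ∈ facs (P.1.comp f), P.1.natDegree * twoPart R.1.natDegree ≤
      R.1.natDegree * twoPart P.1.natDegree := by
    intro R hR
    rw [mem_facs (comp_ne hf P)] at hR
    obtain ⟨Q, hQ, rfl⟩ := down_surj R hR
    rw [down_deg Q hQ, twoPart_mul (MI.deg_pos P) (MI.deg_pos Q)]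
    have h3 := twoPart_le (MI.deg_pos Q)
    calc P.1.natDegree * (twoPart P.1.natDegree * twoPart Q.1.natDegree) =
        (P.1.natDegree * twoPart P.1.natDegree) * twoPart Q.1.natDegree := by ring
      _ ≤ (P.1.natDegree * twoPart P.1.natDegree) * Q.1.natDegree := Nat.mul_le_mul_left _ h3
      _ = _ := by ring
  have h4 := Finset.sum_le_sum h2
  rw [← Finset.mul_sum, ← Finset.sum_mul, h1] at h4
  have h5 := MI.deg_pos P
  apply Nat.le_of_mul_le_mul_left _ h5
  calc _ ≤ _ := h4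
    _ = _ := by ring

end

end Pool.Agent.TH943.HJ
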