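import Pool.Agent.TH943.HJ.Dick2
import Pool.Agent.TH943.HJ.Glob

/-!
Assembly.
-/

set_option autoImplicit false
set_option maxHeartbeats 1000000

open Polynomial

namespace Pool.Agent.TH943.HJ

open Pool.Agent.W313.Hyp Pool.Agent.W343.BSD

section

variable {k : Type} [Field k]

open Classical in
/-- The monic irreducible factors of a polynomial. -/
noncomputable def primes (g : k[X]) : Finset k[X] :=
  (UniqueFactorizationMonoid.normalizedFactors g).toFinset

theorem mem_primes {g : k[X]} (hg : g ≠ 0) (P : k[X]) :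
    P ∈ primes g ↔ P.Monic ∧ Irreducible P ∧ P ∣ g := by
  classical
  unfold primes
  rw [Multiset.mem_toFinset, Polynomial.mem_normalizedFactors_iff hg]
  tauto

theorem sum_primes [Finite k] {g : k[X]} (hg : g ≠ 0) (h : k[X] → ℕ) :
    ∑ P ∈ facs g, h P.1 = ∑ P ∈ primes g, h P := by
  classical
  refine Finset.sum_bij (fun P _ => P.1) ?_ ?_ ?_ ?_
  · intro P hP
    rw [mem_facs hg] at hP
    exact (mem_primes hg _).2 ⟨P.2.1, P.2.2, hP⟩
  · intro P _ Q _ h
    exact Subtype.ext h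
  · intro P hP
    obtain ⟨h1, h2, h3⟩ := (mem_primes hg _).1 hP
    exact ⟨⟨P, h1, h2⟩, (mem_facs hg _).2 h3, rfl⟩
  · intro P _
    rfl

theorem upper [Finite k] (h2 : (2 : k) ≠ 0) {f D : k[X]} (hf : 0 < f.natDegree) (hD : D ≠ 0)
    (m : ℕ) (G : ℤ[X])
    (hG : LF f D = (((1 - C (Nat.card k : ℤ) * X) ^ m * G : ℤ[X]) : PowerSeries ℤ)) :
    m + ∑ P ∈ primes D, twoPart P.natDegree ≤
      ∑ P ∈ primes D, ∑ R ∈ primes (P.comp f), twoPart R.natDegree := by
  have h1 := order_bound (card_odd h2) hf hD m G hG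
  have e1 : ∑ P ∈ facs D, twoPart P.1.natDegree = ∑ P ∈ primes D, twoPart P.natDegree :=
    sum_primes hD (fun P => twoPart P.natDegree)
  have e2 : ∑ P ∈ facs D, ∑ R ∈ facs (P.1.comp f), twoPart R.1.natDegree =
      ∑ P ∈ primes D, ∑ R ∈ primes (P.comp f), twoPart R.natDegree := by
    rw [← sum_primes hD (fun P => ∑ R ∈ primes (P.comp f), twoPart R.natDegree)]
    refine Finset.sum_congr rfl fun P _ => ?_
    exact sum_primes (comp_ne hf P) (fun R => twoPart R.natDegree)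
  rw [e1, e2] at h1
  exact h1

theorem upper_le [Finite k] (h2 : (2 : k) ≠ 0) {f D : k[X]} (hm : f.Monic) (hf : 0 < f.natDegree)
    (hD : Squarefree D) (hs : IsCoprime (D.comp f) (derivative f)) (m : ℕ) (G : ℤ[X])
    (hG : LF f D = (((1 - C (Nat.card k : ℤ) * X) ^ m * G : ℤ[X]) : PowerSeries ℤ)) :
    m + ∑ P ∈ primes D, twoPart P.natDegree ≤ f.natDegree * ∑ P ∈ primes D, twoPart P.natDegree := by
  refine (upper h2 hf hD.ne_zero m G hG).trans ?_
  rw [Finset.mul_sum]
  refine Finset.sum_le_sum fun P hP => ?_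
  rw [mem_primes hD.ne_zero] at hP
  obtain ⟨hPm, hPi, hPD⟩ := hP
  have h3 : P.comp f ∣ D.comp f := by
    obtain ⟨u, rfl⟩ := hPD
    rw [mul_comp]
    exact dvd_mul_right _ _
  have h4 : Squarefree (P.comp f) := (sq_comp hD hs).squarefree_of_dvd h3
  have h5 : (P.comp f).Monic := hPm.comp hm hf.ne'
  rw [← sum_primes h5.ne_zero (fun R => twoPart R.natDegree)]
  exact sum_over_le hf ⟨P, hPm, hPi⟩ h4 h5

theorem primes_of_irreducible {g : k[X]} (hm : g.Monic) (hi : Irreducible g) : primes g = {g} := by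
  ext P
  rw [mem_primes hi.ne_zero, Finset.mem_singleton]
  constructor
  · rintro ⟨h1, h2, h3⟩
    exact eq_of_monic_of_associated h1 hm (h2.associated_of_dvd hi h3)
  · rintro rfl
    exact ⟨hm, hi, dvd_rfl⟩

theorem twoPart_odd {n : ℕ} (h : Odd n) : twoPart n = 1 := by
  unfold twoPart
  rw [padicValNat.eq_zero_of_not_dvd (fun hd => by
    obtain ⟨c, hc⟩ := h
    omega), pow_zero]

theorem upper_zero [Finite k] (h2 : (2 : k) ≠ 0) {f D : k[X]} (hm : f.Monic)
    (hodd : Odd f.natDegree) (hD : D ≠ 0) (hirr : ∀ P ∈ primes D, Irreducible (P.comp f))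
    (m : ℕ) (G : ℤ[X])
    (hG : LF f D = (((1 - C (Nat.card k : ℤ) * X) ^ m * G : ℤ[X]) : PowerSeries ℤ)) : m = 0 := by
  have hf : 0 < f.natDegree := hodd.pos
  have h1 := upper h2 hf hD m G hG
  have h3 : ∑ P ∈ primes D, ∑ R ∈ primes (P.comp f), twoPart R.natDegree =
      ∑ P ∈ primes D, twoPart P.natDegree := by
    refine Finset.sum_congr rfl fun P hP => ?_
    have h4 := hirr P hP
    rw [mem_primes hD] at hP
    have h5 : (P.comp f).Monic := hP.1.comp hm hf.ne'
    rw [primes_of_irreducible h5 h4, Finset.sum_singleton, natDegree_comp,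
      twoPart_mul hP.2.1.natDegree_pos hf, twoPart_odd hodd, mul_one]
  omega

/-- an irreducible polynomial is a constant times a monic one -/
theorem exists_MI_eq {D : k[X]} (hD : Irreducible D) : ∃ (P : MI k) (δ : k), δ ≠ 0 ∧
    D = C δ * P.1 := by
  have hl : D.leadingCoeff ≠ 0 := leadingCoeff_ne_zero.2 hD.ne_zero
  refine ⟨⟨D * C (D.leadingCoeff)⁻¹, monic_mul_leadingCoeff_inv hD.ne_zero, ?_⟩,
    D.leadingCoeff, hl, ?_⟩
  · exact (irreducible_mul_isUnit (isUnit_C.2 (isUnit_iff_ne_zero.2 (inv_ne_zero hl)))).2 hD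
  · show D = C D.leadingCoeff * (D * C (D.leadingCoeff)⁻¹)
    have h1 : C D.leadingCoeff * C (D.leadingCoeff)⁻¹ = 1 := by
      rw [← C_mul, mul_inv_cancel₀ hl, C_1]
    linear_combination (-D) * h1

theorem primes_const {δ : k} (hδ : δ ≠ 0) (P : MI k) : primes (C δ * P.1) = {P.1} := by
  have hu : IsUnit (C δ) := isUnit_C.2 (isUnit_iff_ne_zero.2 hδ)
  ext Q
  rw [mem_primes (mul_ne_zero (C_ne_zero.2 hδ) P.2.2.ne_zero), Finset.mem_singleton,
    hu.dvd_mul_left]
  constructor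
  · rintro ⟨h1, h2, h3⟩
    exact eq_of_monic_of_associated h1 P.2.1 (h2.associated_of_dvd P.2.2 h3)
  · rintro rfl
    exact ⟨P.2.1, P.2.2, dvd_rfl⟩

theorem primes_unit_mul {c : k} (hc : c ≠ 0) {g : k[X]} (hg : g ≠ 0) :
    primes (C c * g) = primes g := by
  have hu : IsUnit (C c) := isUnit_C.2 (isUnit_iff_ne_zero.2 hc)
  ext Q
  rw [mem_primes (mul_ne_zero (C_ne_zero.2 hc) hg), mem_primes hg, hu.dvd_mul_left]

/-- the bound for an irreducible twist of odd degree -/
theorem upper_irr [Finite k] (h2 : (2 : k) ≠ 0) {f D : k[X]} (hm : f.Monic)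
    (hf : 0 < f.natDegree) (hD : Irreducible D) (hDo : Odd D.natDegree)
    (hs : IsCoprime (D.comp f) (derivative f)) (m : ℕ) (G : ℤ[X])
    (hG : LF f D = (((1 - C (Nat.card k : ℤ) * X) ^ m * G : ℤ[X]) : PowerSeries ℤ)) :
    m + 1 ≤ f.natDegree ∧ ((∀ R ∈ primes (D.comp f), Odd R.natDegree) →
      m + 1 ≤ (primes (D.comp f)).card) := by
  obtain ⟨P, δ, hδ, rfl⟩ := exists_MI_eq hD
  have hPo : Odd P.1.natDegree := by rwa [natDegree_C_mul hδ] at hDo
  have h1 := upper_le h2 hm hf hD.squarefree hs m G hG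
  have h3 := upper h2 hf hD.ne_zero m G hG
  rw [primes_const hδ, Finset.sum_singleton, twoPart_odd hPo, mul_one] at h1
  refine ⟨h1, fun hR => ?_⟩
  rw [primes_const hδ, Finset.sum_singleton, Finset.sum_singleton, twoPart_odd hPo] at h3
  have h5 : (C δ * P.1).comp f = C δ * P.1.comp f := by rw [mul_comp, C_comp]
  rw [h5, primes_unit_mul hδ (comp_ne hf P)] at hR ⊢
  refine h3.trans (le_of_eq ?_)
  rw [Finset.sum_congr rfl (fun R hR' => twoPart_odd (hR R hR')), Finset.sum_const, smul_eq_mul,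
    mul_one]

/-- the bound if only one prime of odd degree contributes -/
theorem upper_one [Finite k] (h2 : (2 : k) ≠ 0) {f D : k[X]} (hm : f.Monic)
    (hodd : Odd f.natDegree) (hD : Squarefree D) (hs : IsCoprime (D.comp f) (derivative f))
    {P : k[X]} (hP : P ∈ primes D) (hPo : Odd P.natDegree)
    (hirr : ∀ Q ∈ primes D, Q ≠ P → Irreducible (Q.comp f)) (m : ℕ) (G : ℤ[X])
    (hG : LF f D = (((1 - C (Nat.card k : ℤ) * X) ^ m * G : ℤ[X]) : PowerSeries ℤ)) :
    m + 1 ≤ f.natDegree := by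
  classical
  have hf := hodd.pos
  have h1 := upper h2 hf hD.ne_zero m G hG
  rw [← Finset.add_sum_erase _ _ hP, ← Finset.add_sum_erase _ _ hP, twoPart_odd hPo] at h1
  have h3 : ∑ Q ∈ (primes D).erase P, ∑ R ∈ primes (Q.comp f), twoPart R.natDegree =
      ∑ Q ∈ (primes D).erase P, twoPart Q.natDegree := by
    refine Finset.sum_congr rfl fun Q hQ => ?_
    rw [Finset.mem_erase] at hQ
    have h4 := hirr Q hQ.2 hQ.1
    have h5 := (mem_primes hD.ne_zero Q).1 hQ.2
    have h6 : (Q.comp f).Monic := h5.1.comp hm hf.ne'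
    rw [primes_of_irreducible h6 h4, Finset.sum_singleton, natDegree_comp,
      twoPart_mul h5.2.1.natDegree_pos hf, twoPart_odd hodd, mul_one]
  obtain ⟨hPm, hPi, hPD⟩ := (mem_primes hD.ne_zero P).1 hP
  have h7 : P.comp f ∣ D.comp f := by
    obtain ⟨u, rfl⟩ := hPD
    rw [mul_comp]
    exact dvd_mul_right _ _
  have h8 : Squarefree (P.comp f) := (sq_comp hD hs).squarefree_of_dvd h7
  have h9 : (P.comp f).Monic := hPm.comp hm hf.ne'
  have h10 := sum_over_le hf ⟨P, hPm, hPi⟩ h8 h9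
  have h11 : ∑ R ∈ facs (P.comp f), twoPart R.1.natDegree =
    ∑ R ∈ primes (P.comp f), twoPart R.natDegree :=
      sum_primes h9.ne_zero (fun R => twoPart R.natDegree)
  rw [h11] at h10
  change _ ≤ f.natDegree * twoPart P.natDegree at h10
  rw [twoPart_odd hPo, mul_one] at h10
  omega

/-- the degree of the twisting polynomial -/
theorem natDegree_RR {n : ℕ} (hn : 0 < n) {c a b : k[X]} (hc : c ≠ 0) (ha : a ≠ 0) (hb : b ≠ 0)
    (hab : c.natDegree + 2 * a.natDegree = 2 * b.natDegree) :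
    (RR n c a b).natDegree = 4 * n * b.natDegree + 1 := by
  unfold RR
  have h1 : (X * c ^ n * a ^ (2 * n) * b ^ (2 * n)).natDegree = 4 * n * b.natDegree + 1 := by
    rw [natDegree_mul (mul_ne_zero (mul_ne_zero X_ne_zero (pow_ne_zero _ hc)) (pow_ne_zero _ ha))
      (pow_ne_zero _ hb), natDegree_mul (mul_ne_zero X_ne_zero (pow_ne_zero _ hc))
      (pow_ne_zero _ ha), natDegree_mul X_ne_zero (pow_ne_zero _ hc), natDegree_X, natDegree_pow,
      natDegree_pow, natDegree_pow]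
    linear_combination n * hab
  have h2 : (c ^ (2 * n) * a ^ (4 * n) + b ^ (4 * n)).natDegree ≤ 4 * n * b.natDegree := by
    refine (natDegree_add_le _ _).trans (max_le ?_ ?_)
    · rw [natDegree_mul (pow_ne_zero _ hc) (pow_ne_zero _ ha), natDegree_pow, natDegree_pow]
      exact le_of_eq (by linear_combination 2 * n * hab)
    · rw [natDegree_pow]
  rw [natDegree_sub_eq_right_of_natDegree_lt (by omega), h1]

/-- the splitting for the Dickson polynomials -/
theorem split_dick {ζ : k} {n : ℕ} (hζ : IsPrimitiveRoot ζ n) (hn : Odd n) {c a b : k[X]}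
    (hc : c ≠ 0) (ha : a ≠ 0) (P : MI k) {δ : k} (hδ : δ ≠ 0)
    (hP : RR n c a b = C δ * P.1) (hPc : ¬ P.1 ∣ c)
    (hR1 : (RR n c a b).eval 2 ≠ 0) (hR2 : (RR n c a b).eval (-2) ≠ 0) :
    Split (Dn k n) P (c * RR n c a b) ((c * a * b) ^ n) (c ^ ((n - 1) / 2)) (GG n c a b) := by
  have h4n : 4 * n ≠ 0 := by have := hn.pos; omega
  have h2n : 2 * n ≠ 0 := by have := hn.pos; omega
  have hnd : ¬ P.1 ∣ a * b := by
    intro hd
    have hab : P.1 ∣ a ∧ P.1 ∣ b := by
      rcases P.2.2.prime.dvd_or_dvd hd with h | h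
      · refine ⟨h, ?_⟩
        apply P.2.2.prime.dvd_of_dvd_pow (n := 4 * n)
        have h3 : b ^ (4 * n) = C δ * P.1 - c ^ (2 * n) * a ^ (4 * n) +
            X * c ^ n * a ^ (2 * n) * b ^ (2 * n) := by
          rw [← hP]
          unfold RR
          ring
        rw [h3]
        exact dvd_add (dvd_sub (dvd_mul_left _ _) ((dvd_pow h h4n).mul_left _))
          (((dvd_pow h h2n).mul_left _).mul_right _)
      · refine ⟨?_, h⟩
        have h3 : c ^ (2 * n) * a ^ (4 * n) = C δ * P.1 - b ^ (4 * n) +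
            X * c ^ n * a ^ (2 * n) * b ^ (2 * n) := by
          rw [← hP]
          unfold RR
          ring
        have h5 : P.1 ∣ c ^ (2 * n) * a ^ (4 * n) := by
          rw [h3]
          exact dvd_add (dvd_sub (dvd_mul_left _ _) (dvd_pow h h4n)) ((dvd_pow h h2n).mul_left _)
        rcases P.2.2.prime.dvd_or_dvd h5 with h6 | h6
        · exact absurd (P.2.2.prime.dvd_of_dvd_pow h6) hPc
        · exact P.2.2.prime.dvd_of_dvd_pow h6
    obtain ⟨⟨u, hu⟩, ⟨v, hv⟩⟩ := hab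
    have hsq : P.1 * P.1 ∣ C δ * P.1 := by
      rw [← hP]
      unfold RR
      obtain ⟨e, he⟩ : ∃ e, 2 * n = e + 2 := ⟨2 * n - 2, by have := hn.pos; omega⟩
      have e1 : 4 * n = (e + 2) + (e + 2) := by omega
      have h2 : ∀ x y : k[X], x = P.1 * y → P.1 * P.1 ∣ x ^ (e + 2) := by
        intro x y hx
        rw [hx, pow_add, pow_two]
        exact Dvd.intro_left (((P.1 * y) ^ e) * (y * y)) (by ring)
      rw [e1, he, pow_add a, pow_add b]
      exact dvd_sub (dvd_add (((h2 a u hu).mul_right _).mul_left _) ((h2 b v hv).mul_right _))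
        ((h2 b v hv).mul_left _)
    have h5 : P.1 * P.1 ∣ 1 * P.1 := by
      rw [one_mul]
      exact (isUnit_C.2 (isUnit_iff_ne_zero.2 hδ)).dvd_mul_left.1 hsq
    exact P.2.2.not_isUnit (isUnit_of_dvd_one ((mul_dvd_mul_iff_right P.2.2.ne_zero).1 h5))
  have hndM : ¬ P.1 ∣ c * a * b := by
    intro h
    rw [mul_assoc] at h
    rcases P.2.2.prime.dvd_or_dvd h with h | h
    · exact hPc h
    · exact hnd h
  refine ⟨?_, ?_, ?_, fun h => hndM (P.2.2.prime.dvd_of_dvd_pow h), pow_ne_zero _ hc, ?_,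
    fun z => ?_⟩
  · rw [Dn_natDegree hn.pos]
    exact hn.pos
  · refine Dn_sep hζ hn ?_ ?_
    · intro h
      apply hR1
      rw [hP, eval_mul, h, mul_zero]
    · intro h
      apply hR2
      rw [hP, eval_mul, h, mul_zero]
  · refine ⟨c * C δ, by rw [hP]; ring, fun h => ?_⟩
    exact hPc ((isUnit_C.2 (isUnit_iff_ne_zero.2 hδ)).dvd_mul_right.1 h)
  · rw [prod_GG hζ hn hc ha]
  · have h1 : rd P (GG n c a b z) = C (AdjoinRoot.mk P.1 (c ^ 2 * a ^ 2 * b ^ 2)) * X -
        C (AdjoinRoot.mk P.1 (c * (C z.1 * c ^ 2 * a ^ 4 + C z.1⁻¹ * b ^ 4))) := by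
      unfold GG
      rw [map_sub, map_mul, rd_C, rd_C]
      congr 2
      unfold rd
      rw [coe_mapRingHom, map_X]
    have h2 : AdjoinRoot.mk P.1 (c ^ 2 * a ^ 2 * b ^ 2) ≠ 0 := by
      rw [Ne, AdjoinRoot.mk_eq_zero]
      intro h
      rw [← mul_pow, ← mul_pow] at h
      exact hndM (P.2.2.prime.dvd_of_dvd_pow h)
    rw [h1, natDegree_sub_C, natDegree_C_mul_X _ h2]
    exact one_pos

end

end Pool.Agent.TH943.HJ
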