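import Pool.Agent.TH943.HJ.Ded

/-!
Independence of divisor classes on the curve `y ^ 2 = F(x)`.
-/

set_option autoImplicit false
set_option maxHeartbeats 1000000

open Polynomial

namespace Pool.Agent.TH943.HJ

section

variable {K : Type} [Field K] {F : K[X]}

/-- The ideal of the divisor `g(x) = 0`, `y = w(x)`. -/
noncomputable def pid (F g w : K[X]) : Ideal (CR F) := Ideal.span {pp g, yy F - pp w}

theorem pp_mem_pid (g w : K[X]) : (pp g : CR F) ∈ pid F g w :=
  Ideal.subset_span (Set.mem_insert _ _)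

theorem yy_mem_pid (g w : K[X]) : yy F - pp w ∈ pid F g w :=
  Ideal.subset_span (Set.mem_insert_of_mem _ rfl)

theorem pid_ne {g : K[X]} (hg : g ≠ 0) (w : K[X]) : pid F g w ≠ ⊥ := by
  intro h
  have h1 := pp_mem_pid (F := F) g w
  rw [h, Ideal.mem_bot] at h1
  exact hg ((injective_iff_map_eq_zero _).1 pp_inj _ h1)

theorem pid_mul (h2 : (2 : K) ≠ 0) {g w : K[X]} (hd : g ∣ F - w ^ 2) (hc : IsCoprime g w) :
    pid F g w * pid F g (-w) = Ideal.span {pp g} := by
  unfold pid
  rw [Ideal.span_pair_mul_span_pair]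
  apply le_antisymm
  · rw [Ideal.span_le]
    rintro z (rfl | rfl | rfl | rfl)
    · exact Ideal.mul_mem_left _ _ (Ideal.mem_span_singleton_self _)
    · exact Ideal.mul_mem_right _ _ (Ideal.mem_span_singleton_self _)
    · exact Ideal.mul_mem_left _ _ (Ideal.mem_span_singleton_self _)
    · obtain ⟨c, hc'⟩ := hd
      have h1 : (yy F - pp w) * (yy F - pp (-w)) = pp g * pp c := by
        rw [← map_mul, ← hc', map_sub, map_pow, map_neg, ← yy_sq]
        ring
      rw [SetLike.mem_coe, h1]
      exact Ideal.mul_mem_right _ _ (Ideal.mem_span_singleton_self _)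
  · rw [Ideal.span_singleton_le_iff_mem]
    obtain ⟨a, b, hab⟩ := hc
    have hC : (C (2⁻¹ : K) : K[X]) * 2 = 1 := by
      have : (2 : K[X]) = C 2 := by rw [map_ofNat]
      rw [this, ← C_mul, inv_mul_cancel₀ h2, C_1]
    have h1 : (pp g : CR F) = pp a * (pp g * pp g) +
        (pp b * pp (C (2⁻¹ : K))) * (pp g * (yy F - pp (-w))) -
        (pp b * pp (C (2⁻¹ : K))) * ((yy F - pp w) * pp g) := by
      have h3 : (pp g : CR F) = pp ((a * g + b * w * (C (2⁻¹ : K) * 2)) * g) := by
        congr 1
        rw [hC]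
        linear_combination (-g) * hab
      conv_lhs => rw [h3]
      simp only [map_mul, map_add, map_neg, map_ofNat]
      ring
    refine Set.mem_of_eq_of_mem h1 ?_
    rw [SetLike.mem_coe]
    apply Ideal.sub_mem
    · apply Ideal.add_mem
      · exact Ideal.mul_mem_left _ _ (Ideal.subset_span (by simp))
      · exact Ideal.mul_mem_left _ _ (Ideal.subset_span (by simp))
    · exact Ideal.mul_mem_left _ _ (Ideal.subset_span (by simp))

theorem map_cj_le (g w : K[X]) : Ideal.map (cj F) (pid F g w) ≤ pid F g (-w) := by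
  rw [Ideal.map_le_iff_le_comap]
  unfold pid
  rw [Ideal.span_le]
  rintro z (rfl | rfl)
  · rw [SetLike.mem_coe, Ideal.mem_comap, cj_pp]
    exact pp_mem_pid _ _
  · rw [SetLike.mem_coe, Ideal.mem_comap, map_sub, cj_pp, cj_yy]
    have h1 : -yy F - pp w = -(yy F - pp (-w)) := by
      rw [map_neg]
      ring
    rw [h1, Ideal.neg_mem_iff]
    exact yy_mem_pid _ _

theorem map_cj (g w : K[X]) : Ideal.map (cj F) (pid F g w) = pid F g (-w) := by
  apply le_antisymm (map_cj_le g w)
  have h1 := Ideal.map_mono (f := cj F) (map_cj_le (F := F) g (-w))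
  rw [neg_neg, Ideal.map_map] at h1
  have h2 : (cj F).comp (cj F) = RingHom.id _ := RingHom.ext fun z => cj_cj z
  rw [h2, Ideal.map_id] at h1
  exact h1

/-- the norm of a function is constant times `p` if the ideals agree -/
theorem norm_assoc {p q : K[X]} (h : (Ideal.span {(pp p : CR F)}) = Ideal.span {pp q}) :
    Associated p q := by
  have h1 : (pp p : CR F) ∣ pp q := by
    rw [← Ideal.mem_span_singleton, h]
    exact Ideal.mem_span_singleton_self _
  have h2 : (pp q : CR F) ∣ pp p := by
    rw [← Ideal.mem_span_singleton, ← h]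
    exact Ideal.mem_span_singleton_self _
  exact associated_of_dvd_dvd (pp_dvd h1) (pp_dvd h2)

/-- the leading coefficient of a norm of even degree is a square -/
theorem lead_sq (hodd : Odd F.natDegree) {W V : K[X]}
    (he : Even (W ^ 2 - F * V ^ 2).natDegree) (hne : W ^ 2 - F * V ^ 2 ≠ 0) :
    (W ^ 2 - F * V ^ 2).leadingCoeff = W.leadingCoeff ^ 2 ∧ W ≠ 0 := by
  have hF0 : F ≠ 0 := by
    rintro rfl
    rw [natDegree_zero] at hodd
    exact absurd hodd (by decide)
  by_cases hV : V = 0
  · subst hV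
    have e : W ^ 2 - F * 0 ^ 2 = W ^ 2 := by ring
    rw [e, leadingCoeff_pow]
    refine ⟨rfl, ?_⟩
    rintro rfl
    rw [e] at hne
    exact hne (by ring)
  · have hFV : F * V ^ 2 ≠ 0 := mul_ne_zero hF0 (pow_ne_zero 2 hV)
    have hd : (F * V ^ 2).natDegree = F.natDegree + 2 * V.natDegree := by
      rw [natDegree_mul hF0 (pow_ne_zero 2 hV), natDegree_pow]
    rcases lt_trichotomy (W ^ 2).natDegree (F * V ^ 2).natDegree with h | h | h
    · exfalso
      have h1 : (W ^ 2 - F * V ^ 2).natDegree = (F * V ^ 2).natDegree :=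
        natDegree_sub_eq_right_of_natDegree_lt h
      rw [h1, hd] at he
      obtain ⟨c, hc⟩ := hodd
      obtain ⟨d, hd'⟩ := he
      omega
    · exfalso
      rw [hd, natDegree_pow] at h
      obtain ⟨c, hc⟩ := hodd
      omega
    · have hW : W ≠ 0 := by
        rintro rfl
        simp at h
      refine ⟨?_, hW⟩
      rw [sub_eq_add_neg, leadingCoeff_add_of_degree_lt' , leadingCoeff_pow]
      rw [degree_neg]
      exact degree_lt_degree h

end

end Pool.Agent.TH943.HJ
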