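import Pool.Agent.TH943.HJ.Bij

/-!
Parity of exponents: evaluation on the curve `f(x) = t`.
-/

set_option autoImplicit false
set_option maxHeartbeats 1000000

open Polynomial

namespace Pool.Agent.TH943.HJ

open Pool.Agent.W313.Hyp

section ex

variable {A : Type} [CommRing A] [IsDomain A]

/-- `p` is exactly divisible by the `n`-th power of `R`. -/
def Ex (R p : A) (n : ℕ) : Prop := ∃ u, p = R ^ n * u ∧ ¬ R ∣ u

variable {R p q : A} {m n : ℕ}

omit [IsDomain A] in
theorem Ex.zero (h : ¬ R ∣ p) : Ex R p 0 := ⟨p, by rw [pow_zero, one_mul], h⟩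

omit [IsDomain A] in
theorem Ex.mul (hR : Prime R) (hp : Ex R p m) (hq : Ex R q n) : Ex R (p * q) (m + n) := by
  obtain ⟨u, rfl, hu⟩ := hp
  obtain ⟨v, rfl, hv⟩ := hq
  refine ⟨u * v, by rw [pow_add]; ring, fun h => ?_⟩
  rcases hR.dvd_or_dvd h with h | h
  · exact hu h
  · exact hv h

omit [IsDomain A] in
theorem Ex.pow (hR : Prime R) (hp : Ex R p m) (n : ℕ) : Ex R (p ^ n) (n * m) := by
  induction n with
  | zero =>
    rw [pow_zero, Nat.zero_mul]
    exact Ex.zero fun h => hR.not_unit (isUnit_of_dvd_one h)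
  | succ n ih =>
    rw [pow_succ, Nat.succ_mul]
    exact ih.mul hR hp

omit [IsDomain A] in
theorem Ex.prod (hR : Prime R) {ι : Type} (s : Finset ι) (p : ι → A) (n : ι → ℕ)
    (h : ∀ i ∈ s, Ex R (p i) (n i)) : Ex R (∏ i ∈ s, p i) (∑ i ∈ s, n i) := by
  classical
  induction s using Finset.induction_on with
  | empty =>
    rw [Finset.prod_empty, Finset.sum_empty]
    exact Ex.zero fun h => hR.not_unit (isUnit_of_dvd_one h)
  | insert j s hj ih =>
    rw [Finset.prod_insert hj, Finset.sum_insert hj]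
    exact (h j (Finset.mem_insert_self _ _)).mul hR
      (ih fun i hi => h i (Finset.mem_insert_of_mem hi))

theorem Ex.le (hR : Prime R) (h1 : Ex R p m) (h2 : Ex R p n) : m ≤ n := by
  by_contra hlt
  obtain ⟨u, hu, _⟩ := h1
  obtain ⟨v, hv, hv'⟩ := h2
  apply hv'
  obtain ⟨d, rfl⟩ : ∃ d, m = n + (d + 1) := ⟨m - n - 1, by omega⟩
  refine ⟨R ^ d * u, ?_⟩
  apply mul_left_cancel₀ (pow_ne_zero n hR.ne_zero)
  rw [← hv, hu]
  ring

theorem Ex.unique (hR : Prime R) (h1 : Ex R p m) (h2 : Ex R p n) : m = n :=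
  le_antisymm (h1.le hR h2) (h2.le hR h1)

theorem exists_Ex [WfDvdMonoid A] (hR : Prime R) (hp : p ≠ 0) : ∃ n, Ex R p n := by
  obtain ⟨n, u, hu, h⟩ := WfDvdMonoid.max_power_factor hp hR.irreducible
  exact ⟨n, u, h, hu⟩

end ex

section

variable {k : Type} [Field k]

/-- Restriction of a polynomial in `x` and `t` to the curve `t = f(x)`. -/
noncomputable def ev (f : k[X]) : k[X][X] →+* k[X] := eval₂RingHom (compRingHom f) X

theorem ev_C (f p : k[X]) : ev f (C p) = p.comp f := by
  unfold ev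
  rw [coe_eval₂RingHom, eval₂_C]
  rfl

theorem ev_X (f : k[X]) : ev f X = X := by
  unfold ev
  rw [coe_eval₂RingHom, eval₂_X]

theorem ev_map (f g : k[X]) : ev f (g.map C) = g := by
  unfold ev
  rw [coe_eval₂RingHom, eval₂_map]
  have : (compRingHom f).comp C = (C : k →+* k[X]) := by
    ext a
    simp
  rw [this, eval₂_C_X]

/-- the reduction modulo `P` of a polynomial in `x` and `t` -/
noncomputable def rd (P : MI k) : k[X][X] →+* (RF P)[X] := mapRingHom (AdjoinRoot.mk P.1)

theorem rd_C (P : MI k) (p : k[X]) : rd P (C p) = C (AdjoinRoot.mk P.1 p) := by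
  unfold rd
  rw [coe_mapRingHom, map_C]

theorem rd_map (P : MI k) (g : k[X]) : rd P (g.map C) = g.map (algebraMap k (RF P)) := by
  unfold rd
  rw [coe_mapRingHom, map_map]
  rfl

theorem rd_curve (P : MI k) (f : k[X]) : rd P (f.map C - C X) = fib f P := by
  rw [map_sub, rd_map, rd_C, AdjoinRoot.mk_X]
  rfl

/-- evaluation at a point of the curve -/
theorem aeval_ev {f : k[X]} {P : MI k} (Q : MI (RF P)) (hQ : Q.1 ∣ fib f P) (G : k[X][X]) :
    aeval (AdjoinRoot.root Q.1 : AdjoinRoot Q.1) (ev f G) =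
      aeval (AdjoinRoot.root Q.1 : AdjoinRoot Q.1) (rd P G) := by
  have hroot := aeval_root_f Q hQ
  induction G using Polynomial.induction_on' with
  | add p q hp hq => rw [map_add, map_add, hp, hq, map_add, map_add]
  | monomial n c =>
    rw [← C_mul_X_pow_eq_monomial, map_mul, map_pow, ev_C, ev_X, map_mul, map_pow, aeval_X,
      aeval_comp, hroot, map_mul, map_pow, rd_C]
    have h1 : rd P X = X := by
      unfold rd
      rw [coe_mapRingHom, map_X]
    rw [h1, map_mul, map_pow, aeval_X, aeval_C, algebraMap_mk]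

theorem down_dvd_ev {f : k[X]} {P : MI k} (Q : MI (RF P)) (hQ : Q.1 ∣ fib f P) (G : k[X][X]) :
    (down Q).1 ∣ ev f G ↔ Q.1 ∣ rd P G := by
  have h1 : (down Q).1 ∣ ev f G ↔ aeval (AdjoinRoot.root Q.1 : AdjoinRoot Q.1) (ev f G) = 0 := by
    have := fd2 Q
    exact minpoly.dvd_iff
  rw [h1, aeval_ev Q hQ, AdjoinRoot.aeval_eq, AdjoinRoot.mk_eq_zero]

theorem down_dvd_comp {f : k[X]} {P : MI k} (Q : MI (RF P)) (hQ : Q.1 ∣ fib f P) (c : k[X]) :
    (down Q).1 ∣ c.comp f ↔ P.1 ∣ c := by
  rw [← ev_C, down_dvd_ev Q hQ, rd_C]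
  constructor
  · intro h
    by_contra hc
    have h3 : AdjoinRoot.mk P.1 c ≠ 0 := by
      rw [Ne, AdjoinRoot.mk_eq_zero]
      exact hc
    exact Q.2.2.not_isUnit (isUnit_of_dvd_unit h (isUnit_C.2 (isUnit_iff_ne_zero.2 h3)))
  · intro h
    rw [AdjoinRoot.mk_eq_zero.2 h, C_0]
    exact dvd_zero _

/-- the conditions on a prime of the `t`-line: `f(x) - t` is separable there -/
theorem sq_comp [PerfectField k] {f D : k[X]} (hD : Squarefree D)
    (hc : IsCoprime (D.comp f) (derivative f)) : Squarefree (D.comp f) := by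
  have h1 : D.Separable := PerfectField.separable_iff_squarefree.2 hD
  apply Separable.squarefree
  unfold Separable
  rw [derivative_comp]
  refine IsCoprime.mul_right hc ?_
  exact IsCoprime.map (h1 : IsCoprime D (derivative D)) (compRingHom f)

theorem fib_sq {f : k[X]} {P : MI k} (hf : 0 < f.natDegree)
    (hc : IsCoprime (P.1.comp f) (derivative f)) : Squarefree (fib f P) := by
  apply Separable.squarefree
  unfold Separable
  apply isCoprime_of_irreducible_dvd
  · rintro ⟨h, _⟩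
    exact fib_ne hf P h
  · intro q hq h1 h2
    obtain ⟨Q, hQm, hQ⟩ : ∃ Q : MI (RF P), Q.1 ∣ q ∧ q ∣ Q.1 := by
      refine ⟨⟨q * C (q.leadingCoeff)⁻¹, monic_mul_leadingCoeff_inv hq.ne_zero, ?_⟩, ?_, ?_⟩
      · have hu : IsUnit (C (q.leadingCoeff)⁻¹) :=
          isUnit_C.2 (isUnit_iff_ne_zero.2 (inv_ne_zero (leadingCoeff_ne_zero.2 hq.ne_zero)))
        exact (irreducible_mul_isUnit hu).2 hq
      · have hu : IsUnit (C (q.leadingCoeff)⁻¹) :=
          isUnit_C.2 (isUnit_iff_ne_zero.2 (inv_ne_zero (leadingCoeff_ne_zero.2 hq.ne_zero)))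
        exact (hu.mul_right_dvd).2 dvd_rfl
      · exact dvd_mul_right _ _
    have hQf : Q.1 ∣ fib f P := hQm.trans h1
    have h3 : (down Q).1 ∣ P.1.comp f := down_dvd Q hQf
    have h4 : (down Q).1 ∣ derivative f := by
      have h5 := (down_dvd_ev Q hQf ((derivative f).map C)).2 (by
        rw [rd_map]
        refine hQm.trans ?_
        have h6 : derivative (fib f P) = (derivative f).map (algebraMap k (RF P)) := by
          unfold fib
          rw [derivative_sub, derivative_C, sub_zero, derivative_map]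
        rwa [h6] at h2)
      rwa [ev_map] at h5
    exact (down Q).2.2.not_isUnit (hc.isUnit_of_dvd' h3 h4)

end

end Pool.Agent.TH943.HJ
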