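import Pool.Agent.TH943.HJ.Par
import Pool.Agent.TH943.HJ.Cls

/-!
The parity of the exponents in norm identities.
-/

set_option autoImplicit false
set_option maxHeartbeats 1000000

open Polynomial

namespace Pool.Agent.TH943.HJ

open Pool.Agent.W313.Hyp

section

variable {k : Type} [Field k] {J : Type} [Fintype J]

/-- The polynomial `M(t) ^ 2 (f(x) - t) - D(t) B(t) ^ 2` is the product of the `G j`, none of which is
constant in `x` modulo `P`, where `D` is exactly divisible by `P`. -/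
structure Split (f : k[X]) (P : MI k) (D M B : k[X]) (G : J → k[X][X]) : Prop where
  pos : 0 < f.natDegree
  sep : IsCoprime (P.1.comp f) (derivative f)
  ex : Ex P.1 D 1
  ndvd : ¬ P.1 ∣ M
  ne_zero : B ≠ 0
  prod : ∏ j, G j = C (M ^ 2) * (f.map C - C X) - C (D * B ^ 2)
  nonconst : ∀ j, 0 < (rd P (G j)).natDegree

variable {f : k[X]} {P : MI k} {D M B : k[X]} {G : J → k[X][X]}

theorem Split.prod_rd (h : Split f P D M B G) :
    ∏ j, rd P (G j) = C (AdjoinRoot.mk P.1 (M ^ 2)) * fib f P := by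
  rw [← map_prod, h.prod, map_sub, map_mul, rd_curve, rd_C, rd_C]
  have h1 : AdjoinRoot.mk P.1 (D * B ^ 2) = 0 := by
    rw [AdjoinRoot.mk_eq_zero]
    obtain ⟨u, hu, _⟩ := h.ex
    rw [hu, pow_one]
    exact (dvd_mul_right _ _).mul_right _
  rw [h1, C_0, sub_zero]

theorem Split.mk_ne (h : Split f P D M B G) : AdjoinRoot.mk P.1 (M ^ 2) ≠ 0 := by
  rw [Ne, AdjoinRoot.mk_eq_zero]
  exact fun hd => h.ndvd (P.2.2.prime.dvd_of_dvd_pow hd)

theorem Split.unitM (h : Split f P D M B G) : IsUnit (C (AdjoinRoot.mk P.1 (M ^ 2))) :=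
  isUnit_C.2 (isUnit_iff_ne_zero.2 h.mk_ne)

theorem Split.sq (h : Split f P D M B G) : Squarefree (∏ j, rd P (G j)) := by
  rw [h.prod_rd]
  exact fun x hx => fib_sq h.pos h.sep x ((h.unitM.dvd_mul_left).1 hx)

theorem Split.cop (h : Split f P D M B G) {i j : J} (hij : i ≠ j) :
    IsCoprime (rd P (G i)) (rd P (G j)) := by
  classical
  have h1 : rd P (G i) * rd P (G j) ∣ ∏ j, rd P (G j) := by
    rw [← Finset.prod_pair (f := fun j => rd P (G j)) hij]
    exact Finset.prod_dvd_prod_of_subset _ _ _ (Finset.subset_univ _)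
  have h2 := h.sq.squarefree_of_dvd h1
  exact isRelPrime_iff_isCoprime.1 (squarefree_mul_iff.1 h2).1

theorem Split.exists_Q (h : Split f P D M B G) (j : J) :
    ∃ Q : MI (RF P), Q.1 ∣ rd P (G j) ∧ Q.1 ∣ fib f P := by
  have hnu : ¬ IsUnit (rd P (G j)) := by
    intro hu
    have h1 := natDegree_eq_zero_of_isUnit hu
    have h2 := h.nonconst j
    omega
  obtain ⟨Q, hQ, hd⟩ := exists_monic_irreducible_factor (rd P (G j)) hnu
  refine ⟨⟨Q, hQ, hd.1⟩, hd.2, ?_⟩
  have h3 : Q ∣ C (AdjoinRoot.mk P.1 (M ^ 2)) * fib f P := by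
    rw [← h.prod_rd]
    exact hd.2.trans (Finset.dvd_prod_of_mem _ (Finset.mem_univ j))
  exact (h.unitM.dvd_mul_left).1 h3

theorem comp_ne' {f c : k[X]} (hf : 0 < f.natDegree) (hc : c ≠ 0) : c.comp f ≠ 0 := by
  intro h
  rw [comp_eq_zero_iff] at h
  rcases h with h | ⟨_, h⟩
  · exact hc h
  · rw [h, natDegree_C] at hf
    exact lt_irrefl _ hf

theorem ex_comp [PerfectField k]
    (hs : IsCoprime (P.1.comp f) (derivative f)) (Q : MI (RF P)) (hQ : Q.1 ∣ fib f P) :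
    Ex (down Q).1 (P.1.comp f) 1 := by
  obtain ⟨u, hu⟩ := down_dvd Q hQ
  refine ⟨u, by rw [pow_one]; exact hu, fun hd => ?_⟩
  have h1 := sq_comp P.2.2.squarefree hs (down Q).1 (by
    rw [hu]
    exact mul_dvd_mul_left _ hd)
  exact (down Q).2.2.not_isUnit h1

theorem ex_const [PerfectField k]
    (hs : IsCoprime (P.1.comp f) (derivative f)) {c : k[X]} (hc : c ≠ 0) :
    ∃ γ : ℕ, ∀ Q : MI (RF P), Q.1 ∣ fib f P → Ex (down Q).1 (c.comp f) γ := by
  obtain ⟨γ, u, hu, hd⟩ := exists_Ex P.2.2.prime hc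
  refine ⟨γ, fun Q hQ => ?_⟩
  have h1 := (ex_comp hs Q hQ).pow (down Q).2.2.prime γ
  have h2 : Ex (down Q).1 (u.comp f) 0 := Ex.zero fun h => hd ((down_dvd_comp Q hQ u).1 h)
  have h3 := h1.mul (down Q).2.2.prime h2
  rw [mul_one, add_zero] at h3
  rwa [hu, mul_comp, pow_comp]

theorem Split.ex_D [PerfectField k] (h : Split f P D M B G) (Q : MI (RF P)) (hQ : Q.1 ∣ fib f P) :
    Ex (down Q).1 (D.comp f) 1 := by
  obtain ⟨u, hu, hd⟩ := h.ex
  have h1 := ex_comp h.sep Q hQ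
  have h2 : Ex (down Q).1 (u.comp f) 0 := Ex.zero fun h => hd ((down_dvd_comp Q hQ u).1 h)
  have h3 := h1.mul (down Q).2.2.prime h2
  rw [add_zero] at h3
  rwa [hu, mul_comp, pow_one]

theorem ex_unit {R c : k[X]} (hR : Prime R) (hc : IsUnit c) : Ex R c 0 :=
  Ex.zero fun h => hR.not_isUnit (isUnit_of_dvd_unit h hc)

theorem Split.odd [PerfectField k] (h : Split f P D M B G) {j : J} {Q : MI (RF P)}
    (hQ : Q.1 ∣ fib f P) (hQj : Q.1 ∣ rd P (G j)) :
    ∃ b : ℕ, Ex (down Q).1 (ev f (G j)) (1 + 2 * b) ∧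
      ∀ i, i ≠ j → Ex (down Q).1 (ev f (G i)) 0 := by
  classical
  have hR := (down Q).2.2.prime
  have h0 : ∀ i, i ≠ j → Ex (down Q).1 (ev f (G i)) 0 := by
    intro i hi
    apply Ex.zero
    intro hd
    rw [down_dvd_ev Q hQ] at hd
    exact Q.2.2.not_isUnit ((h.cop hi).isUnit_of_dvd' hd hQj)
  obtain ⟨b, hb⟩ := exists_Ex hR (comp_ne' h.pos h.ne_zero)
  refine ⟨b, ?_, h0⟩
  have e1 : ∏ i, ev f (G i) = C (-1) * (D.comp f * (B.comp f) ^ 2) := by
    rw [← map_prod, h.prod, map_sub, map_mul, map_sub, ev_map, ev_C, ev_C, ev_C, X_comp, sub_self,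
      mul_zero, zero_sub, mul_comp, pow_comp, C_neg, C_1]
    ring
  have e2 : Ex (down Q).1 (∏ i, ev f (G i)) (1 + 2 * b) := by
    rw [e1]
    have h1 := (h.ex_D Q hQ).mul hR (hb.pow hR 2)
    have h2 := (ex_unit hR (isUnit_C.2 (isUnit_iff_ne_zero.2
      (neg_ne_zero.2 (one_ne_zero (α := k)))))).mul hR h1
    rwa [zero_add] at h2
  have hne : ev f (G j) ≠ 0 := by
    intro h3
    have h4 : ∏ i, ev f (G i) = 0 := Finset.prod_eq_zero (Finset.mem_univ j) h3
    rw [h4] at e2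
    obtain ⟨u, hu, hu'⟩ := e2
    rcases mul_eq_zero.1 hu.symm with h5 | h5
    · exact pow_ne_zero _ hR.ne_zero h5
    · rw [h5] at hu'
      exact hu' (dvd_zero _)
  obtain ⟨a, ha⟩ := exists_Ex hR hne
  have e3 : Ex (down Q).1 (∏ i, ev f (G i)) (∑ i, if i = j then a else 0) := by
    apply Ex.prod hR
    intro i _
    split_ifs with hij
    · rw [hij]; exact ha
    · exact h0 i hij
  rw [Finset.sum_ite_eq' Finset.univ j, if_pos (Finset.mem_univ j)] at e3
  rw [e2.unique hR e3]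
  exact ha

theorem Split.parity [PerfectField k] (h : Split f P D M B G) (o : J) (e : J → ℕ) (ho : e o = 0)
    {c1 c2 : k[X]} (hc1 : c1 ≠ 0) (hc2 : c2 ≠ 0) (W V : k[X][X])
    (hid : C c2 * (W ^ 2 - C D * (f.map C - C X) * V ^ 2) = C c1 * ∏ j, G j ^ e j) :
    ∀ j, Even (e j) := by
  classical
  obtain ⟨γ1, hγ1⟩ := ex_const (P := P) h.sep hc1
  obtain ⟨γ2, hγ2⟩ := ex_const (P := P) h.sep hc2
  have e0 : (c2.comp f) * (ev f W) ^ 2 = (c1.comp f) * ∏ j, ev f (G j) ^ e j := by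
    have h1 := congrArg (ev f) hid
    rw [map_mul, map_sub, map_mul, map_mul, map_sub, ev_map, ev_C, ev_C, ev_C, X_comp, sub_self,
      mul_zero, zero_mul, sub_zero, map_mul, ev_C, map_pow, map_prod] at h1
    simp only [map_pow] at h1
    exact h1
  -- the equation at the points over `P` on the `j`-th factor
  have key : ∀ j, ∃ s b : ℕ, γ2 + 2 * s = γ1 + e j * (1 + 2 * b) := by
    intro j
    obtain ⟨Q, hQj, hQ⟩ := h.exists_Q j
    obtain ⟨b, hb, h0⟩ := h.odd hQ hQj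
    have hR := (down Q).2.2.prime
    have e3 : Ex (down Q).1 (∏ i, ev f (G i) ^ e i) (∑ i, if i = j then e j * (1 + 2 * b) else 0) := by
      apply Ex.prod hR
      intro i _
      split_ifs with hij
      · rw [hij]; exact hb.pow hR _
      · have h3 := (h0 i hij).pow hR (e i)
        rwa [mul_zero] at h3
    rw [Finset.sum_ite_eq' Finset.univ j, if_pos (Finset.mem_univ j)] at e3
    have e4 := (hγ1 Q hQ).mul hR e3
    have hW : ev f W ≠ 0 := by
      intro h3
      rw [← e0, h3] at e4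
      obtain ⟨u, hu, hu'⟩ := e4
      rw [zero_pow two_ne_zero, mul_zero] at hu
      rcases mul_eq_zero.1 hu.symm with h5 | h5
      · exact pow_ne_zero _ hR.ne_zero h5
      · rw [h5] at hu'
        exact hu' (dvd_zero _)
    obtain ⟨s, hs⟩ := exists_Ex hR hW
    have e5 := (hγ2 Q hQ).mul hR (hs.pow hR 2)
    rw [e0] at e5
    exact ⟨s, b, e5.unique hR e4⟩
  intro j
  obtain ⟨s, b, h1⟩ := key j
  obtain ⟨s', b', h2⟩ := key o
  rw [ho, zero_mul] at h2
  have h3 : Even (e j * (1 + 2 * b)) := by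
    rw [Nat.even_iff]
    omega
  rw [Nat.even_mul] at h3
  rcases h3 with h3 | h3
  · exact h3
  · exfalso
    rw [Nat.even_iff] at h3
    omega

end

end Pool.Agent.TH943.HJ
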