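import Pool.Agent.TH943.HJ.Par2

/-!
The rank of the Jacobian over the rational function field.
-/

set_option autoImplicit false
set_option maxHeartbeats 1000000

open Polynomial

namespace Pool.Agent.TH943.HJ

open Pool.Agent.W313.Hyp

section

variable {k : Type} [Field k] {J : Type} [Fintype J]

/-- polynomials in `x` and `t` as polynomials in `x` over `k(t)` -/
noncomputable def emb : k[X][X] →+* (RatFunc k)[X] := mapRingHom (algebraMap k[X] (RatFunc k))

theorem emb_C (p : k[X]) : emb (C p) = C (algebraMap k[X] (RatFunc k) p) := by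
  unfold emb
  rw [coe_mapRingHom, map_C]

theorem emb_inj : Function.Injective (emb (k := k)) :=
  map_injective _ (IsFractionRing.injective k[X] (RatFunc k))

theorem natDegree_emb (G : k[X][X]) : (emb G).natDegree = G.natDegree := by
  unfold emb
  rw [coe_mapRingHom, natDegree_map_eq_of_injective (IsFractionRing.injective k[X] (RatFunc k))]

theorem leadingCoeff_emb (G : k[X][X]) :
    (emb G).leadingCoeff = algebraMap k[X] (RatFunc k) G.leadingCoeff := by
  unfold emb
  rw [coe_mapRingHom, leadingCoeff_map_of_injective (IsFractionRing.injective k[X] (RatFunc k))]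

/-- The right hand side of the equation `y ^ 2 = D(t) (f(x) - t)`. -/
noncomputable def FF (f D : k[X]) : (RatFunc k)[X] :=
  C (algebraMap k[X] (RatFunc k) D) * (f.map (algebraMap k (RatFunc k)) - C RatFunc.X)

theorem FF_eq (f D : k[X]) : FF f D = emb (C D * (f.map C - C X)) := by
  have h1 : emb (f.map C) = f.map (algebraMap k (RatFunc k)) := by
    unfold emb
    rw [coe_mapRingHom, map_map]
    rfl
  rw [map_mul, map_sub, emb_C, emb_C, h1, RatFunc.algebraMap_X]
  rfl

theorem alg_ne {D : k[X]} (hD : D ≠ 0) : algebraMap k[X] (RatFunc k) D ≠ 0 := by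
  rw [Ne, IsFractionRing.to_map_eq_zero_iff]
  exact hD

theorem natDegree_FF {f D : k[X]} (hD : D ≠ 0) :
    (FF f D).natDegree = f.natDegree := by
  unfold FF
  rw [natDegree_C_mul (alg_ne hD), natDegree_sub_C, natDegree_map]

theorem monic_curve {f : k[X]} (hf : 0 < f.natDegree) (hm : f.Monic) :
    (f.map C - C X : k[X][X]).Monic := by
  have h1 : (f.map C : k[X][X]).Monic := hm.map _
  apply h1.sub_of_left
  rw [degree_map_eq_of_injective C_injective]
  exact lt_of_le_of_lt degree_C_le (natDegree_pos_iff_degree_pos.1 hf)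

theorem irr_curve {f : k[X]} : Irreducible (f.map C - C X : k[X][X]) := by
  rw [← MulEquiv.irreducible_iff (Bivariate.swap (R := k)).toMulEquiv]
  show Irreducible (Bivariate.swap (f.map C - C X : k[X][X]))
  rw [map_sub, Bivariate.swap_map_C, Bivariate.swap_X]
  have h1 : (C f - X : k[X][X]) = -(X - C f) := by ring
  rw [h1]
  exact (Associated.neg_left (Associated.refl _)).symm.irreducible (irreducible_X_sub_C f)

/-- `f(x) - t` is irreducible over `k(t)` -/
theorem irr_FF {f D : k[X]} (hf : 0 < f.natDegree) (hm : f.Monic) (hD : D ≠ 0) :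
    Irreducible (FF f D) := by
  rw [FF_eq, map_mul, emb_C]
  have hu : IsUnit (C (algebraMap k[X] (RatFunc k) D)) :=
    isUnit_C.2 (isUnit_iff_ne_zero.2 (alg_ne hD))
  rw [irreducible_isUnit_mul hu]
  exact ((monic_curve hf hm).irreducible_iff_irreducible_map_fraction_map
    (K := RatFunc k)).1 irr_curve

theorem clear (W : (RatFunc k)[X]) : ∃ d : k[X], d ≠ 0 ∧ ∃ W0 : k[X][X],
    emb W0 = C (algebraMap k[X] (RatFunc k) d) * W := by
  obtain ⟨b, hb, h⟩ := IsLocalization.integerNormalization_spec (nonZeroDivisors k[X]) W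
  refine ⟨b, nonZeroDivisors.ne_zero hb, _, h.trans ?_⟩
  rw [← smul_eq_C_mul, algebraMap_smul]

variable {f : k[X]} {P : MI k} {D M B : k[X]} {G : J → k[X][X]}

theorem Split.lead (h : Split f P D M B G) (hm : f.Monic) (j : J) :
    ¬ P.1 ∣ (G j).leadingCoeff := by
  intro hd
  have h1 : (∏ j, G j).leadingCoeff = M ^ 2 := by
    rw [h.prod]
    have h2 : (C (M ^ 2) * (f.map C - C X) : k[X][X]).leadingCoeff = M ^ 2 := by
      rw [leadingCoeff_mul, (monic_curve h.pos hm).leadingCoeff, leadingCoeff_C, mul_one]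
    have hM : M ^ 2 ≠ 0 := by
      intro h0
      have h3 : M = 0 := pow_eq_zero_iff (two_ne_zero) |>.1 h0
      exact h.ndvd (h3 ▸ dvd_zero _)
    have h3 : (C (M ^ 2) * (f.map C - C X) : k[X][X]).natDegree = f.natDegree := by
      rw [natDegree_C_mul hM, natDegree_sub_C, natDegree_map_eq_of_injective C_injective]
    rw [leadingCoeff_sub_of_degree_lt, h2]
    refine lt_of_le_of_lt degree_C_le ?_
    apply natDegree_pos_iff_degree_pos.1
    rw [h3]
    exact h.pos
  have h4 : P.1 ∣ (∏ j, G j).leadingCoeff := by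
    rw [leadingCoeff_prod]
    exact hd.trans (Finset.dvd_prod_of_mem _ (Finset.mem_univ j))
  rw [h1] at h4
  exact h.ndvd (P.2.2.prime.dvd_of_dvd_pow h4)

theorem Split.G_ne (h : Split f P D M B G) (j : J) : G j ≠ 0 := by
  intro h0
  have h1 := h.nonconst j
  rw [h0, map_zero, natDegree_zero] at h1
  exact lt_irrefl _ h1

theorem Split.cop_K (h : Split f P D M B G) (hm : f.Monic) {i j : J} (hij : i ≠ j) :
    IsCoprime (emb (G i)) (emb (G j)) := by
  have hdeg : ∀ j, (rd P (G j)).natDegree = (G j).natDegree := by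
    intro j
    unfold rd
    rw [coe_mapRingHom]
    apply natDegree_map_of_leadingCoeff_ne_zero
    rw [Ne, AdjoinRoot.mk_eq_zero]
    exact h.lead hm j
  by_contra hnc
  have h1 : resultant (emb (G i)) (emb (G j)) = 0 := by
    rw [resultant_eq_zero_iff]
    refine ⟨Or.inl ?_, hnc⟩
    rw [Ne, map_eq_zero_iff _ emb_inj]
    exact h.G_ne i
  have h2 : resultant (G i) (G j) = 0 := by
    have h3 := resultant_map_map (G i) (G j) (G i).natDegree (G j).natDegree
      (algebraMap k[X] (RatFunc k))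
    have h4 : resultant ((G i).map (algebraMap k[X] (RatFunc k)))
        ((G j).map (algebraMap k[X] (RatFunc k))) (G i).natDegree (G j).natDegree =
        resultant (emb (G i)) (emb (G j)) := by
      rw [natDegree_emb, natDegree_emb]
      rfl
    rw [h4, h1] at h3
    exact (IsFractionRing.to_map_eq_zero_iff).1 h3.symm
  have h5 : resultant (rd P (G i)) (rd P (G j)) = 0 := by
    have h3 := resultant_map_map (G i) (G j) (G i).natDegree (G j).natDegree
      (AdjoinRoot.mk P.1)
    have h4 : resultant ((G i).map (AdjoinRoot.mk P.1))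
        ((G j).map (AdjoinRoot.mk P.1)) (G i).natDegree (G j).natDegree =
        resultant (rd P (G i)) (rd P (G j)) := by
      rw [hdeg, hdeg]
      rfl
    rw [← h4, h3, h2, map_zero]
  rw [resultant_eq_zero_iff] at h5
  exact h5.2 (h.cop hij)

/-- the normalized factor -/
noncomputable def gg (G : J → k[X][X]) (j : J) : (RatFunc k)[X] :=
  C (algebraMap k[X] (RatFunc k) (G j).leadingCoeff)⁻¹ * emb (G j)

theorem Split.lead_ne (h : Split f P D M B G) (j : J) : (G j).leadingCoeff ≠ 0 :=
  leadingCoeff_ne_zero.2 (h.G_ne j)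

theorem gg_monic (h : Split f P D M B G) (j : J) : (gg G j).Monic := by
  unfold gg
  rw [Monic, leadingCoeff_mul, leadingCoeff_C, leadingCoeff_emb]
  exact inv_mul_cancel₀ (alg_ne (h.lead_ne j))

theorem unit_C {c : RatFunc k} (hc : c ≠ 0) : IsUnit (C c) := isUnit_C.2 (isUnit_iff_ne_zero.2 hc)

/-- the ordinate of the points -/
noncomputable def ord (D M B : k[X]) : RatFunc k :=
  algebraMap k[X] (RatFunc k) (D * B) / algebraMap k[X] (RatFunc k) M

theorem Split.M_ne (h : Split f P D M B G) : M ≠ 0 := by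
  rintro rfl
  exact h.ndvd (dvd_zero _)

theorem Split.D_ne (h : Split f P D M B G) : D ≠ 0 := by
  rintro rfl
  obtain ⟨u, hu, hd⟩ := h.ex
  rw [pow_one] at hu
  rcases mul_eq_zero.1 hu.symm with h1 | h1
  · exact P.2.2.ne_zero h1
  · rw [h1] at hd
    exact hd (dvd_zero _)

theorem Split.FF_sub (h : Split f P D M B G) : FF f D - C (ord D M B) ^ 2 =
    C (algebraMap k[X] (RatFunc k) D / (algebraMap k[X] (RatFunc k) M) ^ 2) *
      ∏ j, emb (G j) := by
  have hM := alg_ne h.M_ne
  have e1 : algebraMap k[X] (RatFunc k) D / (algebraMap k[X] (RatFunc k) M) ^ 2 =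
      algebraMap k[X] (RatFunc k) D * (algebraMap k[X] (RatFunc k) M)⁻¹ *
        (algebraMap k[X] (RatFunc k) M)⁻¹ := by
    rw [div_eq_mul_inv, pow_two, mul_inv, mul_assoc]
  have e2 : ord D M B = algebraMap k[X] (RatFunc k) D *
      algebraMap k[X] (RatFunc k) B * (algebraMap k[X] (RatFunc k) M)⁻¹ := by
    unfold ord
    rw [map_mul _ D B, div_eq_mul_inv]
  rw [← map_prod, h.prod, FF_eq, e1, e2]
  have h1 : (C (algebraMap k[X] (RatFunc k) M)) * C (algebraMap k[X] (RatFunc k) M)⁻¹ = 1 := by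
    rw [← C_mul, mul_inv_cancel₀ hM, C_1]
  simp only [map_mul, map_sub, map_pow, emb_C]
  generalize C (algebraMap k[X] (RatFunc k) M) = m at *
  generalize C (algebraMap k[X] (RatFunc k) M)⁻¹ = m' at *
  generalize C (algebraMap k[X] (RatFunc k) D) = d
  generalize C (algebraMap k[X] (RatFunc k) B) = b
  generalize emb (map C f) - C (algebraMap k[X] (RatFunc k) X) = q
  linear_combination (-(d * q) * (m * m' + 1)) * h1

theorem Split.pts (h : Split f P D M B G) (hm : f.Monic) (o : J) :
    Pts (FF f D) (fun i : {j // j ≠ o} => gg G i.1) (fun _ => C (ord D M B)) := by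
  classical
  refine ⟨fun i => gg_monic h i.1, fun i => ?_, fun i => ?_, fun i j hij => ?_⟩
  · rw [h.FF_sub]
    unfold gg
    rw [(unit_C (inv_ne_zero (alg_ne (h.lead_ne i.1)))).mul_left_dvd]
    exact (Finset.dvd_prod_of_mem _ (Finset.mem_univ i.1)).mul_left _
  · have hw : ord D M B ≠ 0 := div_ne_zero (alg_ne (mul_ne_zero h.D_ne h.ne_zero)) (alg_ne h.M_ne)
    exact (isCoprime_one_right (x := gg G i.1)).of_isCoprime_of_dvd_right
      (unit_C hw).dvd
  · have hne : i.1 ≠ j.1 := fun h0 => hij (Subtype.ext h0)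
    unfold gg
    rw [isCoprime_mul_unit_left_left (unit_C (inv_ne_zero (alg_ne (h.lead_ne i.1)))),
      isCoprime_mul_unit_left_right (unit_C (inv_ne_zero (alg_ne (h.lead_ne j.1))))]
    exact h.cop_K hm hne

/-- the parity of the exponents over `k(t)` -/
theorem Split.parity_K [PerfectField k] (h : Split f P D M B G) (hm : f.Monic) [DecidableEq J]
    (o : J)
    (W V : (RatFunc k)[X]) (c : RatFunc k) (e : {j // j ≠ o} → ℕ) (hc : c ≠ 0)
    (hN : W ^ 2 - FF f D * V ^ 2 = C c * ∏ i : {j // j ≠ o}, gg G i.1 ^ e i) :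
    ∀ i, Even (e i) := by
  obtain ⟨d1, hd1, W1, hW1⟩ := clear W
  obtain ⟨d2, hd2, V1, hV1⟩ := clear V
  set φ := algebraMap k[X] (RatFunc k) with hφ
  set e' : J → ℕ := fun j => if hj : j ≠ o then e ⟨j, hj⟩ else 0 with he'
  have heo : e' o = 0 := by
    rw [he']
    exact dif_neg (not_not.2 rfl)
  have hei : ∀ i : {j // j ≠ o}, e' i.1 = e i := fun i => dif_pos i.2
  have hprod : ∀ g : J → (RatFunc k)[X], ∏ j, g j ^ e' j = ∏ i : {j // j ≠ o}, g i.1 ^ e i := by
    intro g
    rw [Fintype.prod_eq_mul_prod_subtype_ne _ o, heo, pow_zero, one_mul]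
    exact Finset.prod_congr rfl fun i _ => by rw [hei]
  set r : RatFunc k := φ (d1 * d2) ^ 2 * c * ∏ j, ((φ (G j).leadingCoeff)⁻¹) ^ e' j with hr
  have hr0 : r ≠ 0 := by
    refine mul_ne_zero (mul_ne_zero (pow_ne_zero 2 (alg_ne (mul_ne_zero hd1 hd2))) hc) ?_
    exact Finset.prod_ne_zero_iff.2 fun j _ => pow_ne_zero _ (inv_ne_zero (alg_ne (h.lead_ne j)))
  obtain ⟨c1, c2, hc2, hrc⟩ := IsFractionRing.div_surjective (A := k[X]) r
  have hc2' : c2 ≠ 0 := nonZeroDivisors.ne_zero hc2
  have hc1' : c1 ≠ 0 := by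
    rintro rfl
    rw [map_zero, zero_div] at hrc
    exact hr0 hrc.symm
  have hid : C c2 * ((C d2 * W1) ^ 2 - C D * (f.map C - C X) * (C d1 * V1) ^ 2) =
      C c1 * ∏ j, G j ^ e' j := by
    apply emb_inj
    have e3 : emb (C D * (f.map C - C X)) = FF f D := (FF_eq _ _).symm
    rw [map_mul, map_sub, map_pow, map_mul emb (C D * (f.map C - C X)), e3, map_pow,
      map_mul emb (C d2), map_mul emb (C d1), hW1, hV1, emb_C, emb_C, emb_C, map_mul, map_prod,
      emb_C]
    simp only [map_pow]
    have e4 : (C (φ d2) * (C (φ d1) * W)) ^ 2 - FF f D * (C (φ d1) * (C (φ d2) * V)) ^ 2 =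
        C (φ (d1 * d2) ^ 2) * (C c * ∏ i : {j // j ≠ o}, gg G i.1 ^ e i) := by
      rw [← hN]
      simp only [map_mul, map_pow]
      ring
    have e5 : ∏ i : {j // j ≠ o}, gg G i.1 ^ e i =
        C (∏ j, ((φ (G j).leadingCoeff)⁻¹) ^ e' j) * ∏ j, emb (G j) ^ e' j := by
      rw [← hprod (gg G), map_prod, ← Finset.prod_mul_distrib]
      refine Finset.prod_congr rfl fun j _ => ?_
      have e7 : C ((φ (G j).leadingCoeff)⁻¹ ^ e' j) = C ((φ (G j).leadingCoeff)⁻¹) ^ e' j :=
        map_pow _ _ _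
      rw [e7, ← mul_pow]
      rfl
    have e6 : C (φ c2) * C r = C (φ c1) := by
      rw [← C_mul, ← hrc, mul_div_cancel₀ _ (alg_ne hc2')]
    rw [e4, e5, ← e6, hr]
    simp only [map_mul, map_pow]
    ring
  intro i
  rw [← hei i]
  exact h.parity o e' heo hc1' hc2' _ _ hid i.1

/-- The rank of the Jacobian is at least the number of factors minus one. -/
theorem Split.rank [PerfectField k] (h : Split f P D M B G) (hm : f.Monic) (h2 : (2 : k) ≠ 0)
    (hodd : Odd f.natDegree) :
    ∃ _ : IsDedekindDomain (CR (FF f D)), (Fintype.card J : Cardinal) ≤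
      Module.rank ℤ (Additive (ClassGroup (CR (FF f D)))) + 1 := by
  classical
  have h2' : (2 : RatFunc k) ≠ 0 := by
    have h3 := (algebraMap k (RatFunc k)).injective.ne h2
    rwa [map_ofNat, map_zero] at h3
  have hD := h.D_ne
  have hodd' : Odd (FF f D).natDegree := by rwa [natDegree_FF hD]
  have hirr := irr_FF h.pos hm hD
  have hded : IsDedekindDomain (CR (FF f D)) := dedekind h2' hodd' hirr.squarefree
  refine ⟨hded, ?_⟩
  rcases isEmpty_or_nonempty J with hJ | ⟨⟨o⟩⟩
  · simp
  · have h4 := rank_ge h2' hodd' hirr (h.pts hm o) (fun W V c e hc hN => h.parity_K hm o W V c e hc hN)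
    have h5 : Fintype.card J = Fintype.card {j // j ≠ o} + 1 := by
      rw [Fintype.card_subtype_compl, Fintype.card_subtype_eq]
      have : 0 < Fintype.card J := Fintype.card_pos_iff.2 ⟨o⟩
      omega
    rw [h5]
    push_cast
    gcongr

end

end Pool.Agent.TH943.HJ
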