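import Mathlib

/-!
The coordinate ring of the affine curve `y ^ 2 = F(x)`.
-/

set_option autoImplicit false
set_option maxHeartbeats 1000000

open Polynomial

namespace Pool.Agent.TH943.HJ

section

variable {K : Type} [Field K]

/-- The coordinate ring of the affine curve `y ^ 2 = F(x)`. -/
abbrev CR (F : K[X]) : Type := AdjoinRoot (X ^ 2 - C F : K[X][X])

/-- The function `y`. -/
noncomputable def yy (F : K[X]) : CR F := AdjoinRoot.root (X ^ 2 - C F : K[X][X])

/-- The polynomials in `x` as functions on the curve. -/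
noncomputable def pp {F : K[X]} : K[X] →+* CR F := algebraMap K[X] (CR F)

theorem pp_eq {F : K[X]} (p : K[X]) : (pp p : CR F) = algebraMap K[X] (CR F) p := rfl

theorem monicF (F : K[X]) : (X ^ 2 - C F : K[X][X]).Monic := monic_X_pow_sub_C F two_ne_zero

theorem natDegreeF (F : K[X]) : (X ^ 2 - C F : K[X][X]).natDegree = 2 :=
  natDegree_X_pow_sub_C

theorem yy_sq (F : K[X]) : yy F ^ 2 = pp F := by
  have h : aeval (AdjoinRoot.root (X ^ 2 - C F : K[X][X])) (X ^ 2 - C F : K[X][X]) = 0 := by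
    rw [AdjoinRoot.aeval_eq, AdjoinRoot.mk_self]
  rw [map_sub, map_pow, aeval_X, aeval_C, sub_eq_zero] at h
  exact h

/-- The function `p(x) + q(x) y`. -/
noncomputable def el {F : K[X]} (p q : K[X]) : CR F := pp p + pp q * yy F

theorem exists_el {F : K[X]} (z : CR F) : ∃ p q, z = el p q := by
  obtain ⟨g, rfl⟩ := AdjoinRoot.mk_surjective z
  have h1 : AdjoinRoot.mk (X ^ 2 - C F : K[X][X]) g =
      AdjoinRoot.mk (X ^ 2 - C F : K[X][X]) (g %ₘ (X ^ 2 - C F)) := by
    rw [AdjoinRoot.mk_eq_mk]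
    have h := modByMonic_add_div g (X ^ 2 - C F : K[X][X])
    exact ⟨g /ₘ (X ^ 2 - C F), by linear_combination -h⟩
  have h2 : (g %ₘ (X ^ 2 - C F : K[X][X])).degree < 2 := by
    have := degree_modByMonic_lt g (monicF F)
    rwa [degree_X_pow_sub_C two_pos] at this
  have h3 := as_sum_range_C_mul_X_pow' (p := g %ₘ (X ^ 2 - C F : K[X][X])) (n := 2) (by
    rcases eq_or_ne (g %ₘ (X ^ 2 - C F : K[X][X])) 0 with h0 | h0
    · rw [h0, natDegree_zero]; norm_num
    · exact (natDegree_lt_iff_degree_lt h0).2 h2)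
  refine ⟨(g %ₘ (X ^ 2 - C F : K[X][X])).coeff 0, (g %ₘ (X ^ 2 - C F : K[X][X])).coeff 1, ?_⟩
  rw [h1]
  conv_lhs => rw [h3]
  rw [Finset.sum_range_succ, Finset.sum_range_one, pow_zero, mul_one, pow_one, map_add, map_mul,
    AdjoinRoot.mk_C, AdjoinRoot.mk_C, AdjoinRoot.mk_X]
  rfl

theorem el_eq_mk {F : K[X]} (p q : K[X]) :
    (el p q : CR F) = AdjoinRoot.mk (X ^ 2 - C F : K[X][X]) (C p + C q * X) := by
  rw [map_add, map_mul, AdjoinRoot.mk_C, AdjoinRoot.mk_C, AdjoinRoot.mk_X]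
  rfl

theorem el_eq_zero {F : K[X]} {p q : K[X]} (h : (el p q : CR F) = 0) : p = 0 ∧ q = 0 := by
  rw [el_eq_mk, AdjoinRoot.mk_eq_zero] at h
  have h1 : (C p + C q * X : K[X][X]) = 0 := by
    by_contra hne
    have h2 := natDegree_le_of_dvd h hne
    rw [natDegreeF] at h2
    have h3 : (C p + C q * X : K[X][X]).natDegree ≤ 1 := by
      refine (natDegree_add_le _ _).trans (max_le ?_ ?_)
      · rw [natDegree_C]; exact Nat.zero_le _
      · exact (natDegree_C_mul_le _ _).trans natDegree_X_le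
    omega
  have e0 := congrArg (fun r => coeff r 0) h1
  have e1 := congrArg (fun r => coeff r 1) h1
  simp at e0 e1
  exact ⟨e0, e1⟩

theorem el_left {F : K[X]} (p : K[X]) : (el p 0 : CR F) = pp p := by
  unfold el
  rw [map_zero, zero_mul, add_zero]

theorem pp_inj {F : K[X]} : Function.Injective (pp : K[X] →+* CR F) := by
  rw [injective_iff_map_eq_zero]
  intro a ha
  rw [← el_left] at ha
  exact (el_eq_zero ha).1

theorem el_sub {F : K[X]} (p q p' q' : K[X]) :
    (el p q : CR F) - el p' q' = el (p - p') (q - q') := by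
  unfold el
  rw [map_sub, map_sub]
  ring

theorem el_mul {F : K[X]} (p q p' q' : K[X]) :
    (el p q : CR F) * el p' q' = el (p * p' + F * (q * q')) (p * q' + q * p') := by
  unfold el
  have h := yy_sq F
  simp only [map_add, map_mul]
  linear_combination (pp q * pp q') * h

theorem el_inj {F : K[X]} {p q p' q' : K[X]} (h : (el p q : CR F) = el p' q') :
    p = p' ∧ q = q' := by
  rw [← sub_eq_zero, el_sub] at h
  obtain ⟨h1, h2⟩ := el_eq_zero h
  exact ⟨sub_eq_zero.1 h1, sub_eq_zero.1 h2⟩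

theorem eval_cj (F : K[X]) :
    (X ^ 2 - C F : K[X][X]).eval₂ (algebraMap K[X] (CR F)) (-yy F) = 0 := by
  rw [eval₂_sub, eval₂_pow, eval₂_X, eval₂_C, neg_sq, yy_sq, pp_eq, sub_self]

/-- The involution `y ↦ -y`. -/
noncomputable def cj (F : K[X]) : CR F →+* CR F :=
  AdjoinRoot.lift (algebraMap K[X] (CR F)) (-yy F) (eval_cj F)

theorem cj_pp {F : K[X]} (p : K[X]) : cj F (pp p) = pp p :=
  AdjoinRoot.lift_of (i := algebraMap K[X] (CR F)) (h := eval_cj F) (x := p)

theorem cj_yy (F : K[X]) : cj F (yy F) = -yy F :=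
  AdjoinRoot.lift_root (i := algebraMap K[X] (CR F)) (eval_cj F)

theorem cj_el {F : K[X]} (p q : K[X]) : cj F (el p q) = el p (-q) := by
  unfold el
  rw [map_add, map_mul, cj_pp, cj_pp, cj_yy, map_neg]
  ring

theorem cj_cj {F : K[X]} (z : CR F) : cj F (cj F z) = z := by
  obtain ⟨p, q, rfl⟩ := exists_el z
  rw [cj_el, cj_el, neg_neg]

theorem el_mul_cj {F : K[X]} (p q : K[X]) :
    (el p q : CR F) * cj F (el p q) = pp (p ^ 2 - F * q ^ 2) := by
  rw [cj_el, el_mul, ← el_left]
  congr 1 <;> ring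

theorem norm_ne {F : K[X]} (hodd : Odd F.natDegree) {p q : K[X]} (h : p ^ 2 - F * q ^ 2 = 0) :
    p = 0 ∧ q = 0 := by
  have hF0 : F ≠ 0 := by
    rintro rfl
    rw [natDegree_zero] at hodd
    exact absurd hodd (by decide)
  by_cases hq : q = 0
  · rw [hq] at h
    refine ⟨?_, hq⟩
    have : p ^ 2 = 0 := by linear_combination h
    exact pow_eq_zero_iff (two_ne_zero) |>.1 this
  · exfalso
    have h1 : p ^ 2 = F * q ^ 2 := by linear_combination h
    have h2 := congrArg natDegree h1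
    rw [natDegree_pow, natDegree_mul hF0 (pow_ne_zero 2 hq), natDegree_pow] at h2
    obtain ⟨c, hc⟩ := hodd
    omega

theorem pp_dvd {F : K[X]} {p q : K[X]} (h : (pp p : CR F) ∣ pp q) : p ∣ q := by
  obtain ⟨z, hz⟩ := h
  obtain ⟨a, b, rfl⟩ := exists_el z
  rw [← el_left, ← el_left, el_mul] at hz
  obtain ⟨h1, h2⟩ := el_inj hz
  refine ⟨a, ?_⟩
  rw [h1]
  ring

theorem isDomain {F : K[X]} (hodd : Odd F.natDegree) : IsDomain (CR F) := by
  have : Nontrivial (CR F) := pp_inj.nontrivial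
  have : NoZeroDivisors (CR F) := by
    constructor
    intro a b hab
    obtain ⟨p, q, rfl⟩ := exists_el a
    obtain ⟨p', q', rfl⟩ := exists_el b
    have h1 : (pp ((p ^ 2 - F * q ^ 2) * (p' ^ 2 - F * q' ^ 2)) : CR F) = 0 := by
      rw [map_mul, ← el_mul_cj, ← el_mul_cj]
      linear_combination cj F (el p q) * cj F (el p' q') * hab
    have h2 := (injective_iff_map_eq_zero _).1 pp_inj _ h1
    rcases mul_eq_zero.1 h2 with h | h
    · left
      obtain ⟨rfl, rfl⟩ := norm_ne hodd h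
      rw [el_left, map_zero]
    · right
      obtain ⟨rfl, rfl⟩ := norm_ne hodd h
      rw [el_left, map_zero]
  exact NoZeroDivisors.to_isDomain _

end

end Pool.Agent.TH943.HJ
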